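import Mathlib
import Pool.Agent.Y682.AMF
import Pool.Agent.Y500.XD.Zero0

/-!
# Local conditions at the split primes for the quadratic twists of `X_0(14)` (helper743)
-/

set_option autoImplicit false
set_option linter.unusedSectionVars false

attribute [-instance] DivisionRing.toRatAlgebra

open NumberField IsDedekindDomain

namespace Pool.Agent.Run7.h743.SX

open Pool.Agent.Y682 Pool.Agent.Y500.XD

section

variable {v : HeightOneSpectrum (𝓞 ℚ)} {p : ℕ}

/-- integral elements of the completion are congruent to integers -/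
lemma approx {z : v.adicCompletion ℚ} (hz : vv v z ≤ 1) :
    ∃ n : ℤ, vv v (z - (n : v.adicCompletion ℚ)) < 1 := by
  obtain ⟨k, hk⟩ := Y682.exists_approx v z 1 one_ne_zero
  have hk1 : v.valuation ℚ k ≤ 1 := by
    rw [← vv_coe]
    have h1 : algebraMap ℚ (v.adicCompletion ℚ) k = z + (algebraMap ℚ _ k - z) := by ring
    rw [h1]
    exact (Valuation.map_add _ _ _).trans (max_le hz hk.le)
  obtain ⟨a, ha⟩ := Pool.Agent.TeamU.B7.exists_approx v hk1
  obtain ⟨n, rfl⟩ := int_of a
  refine ⟨n, ?_⟩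
  have h1 : z - (n : v.adicCompletion ℚ) = -(algebraMap ℚ _ k - z) +
      algebraMap ℚ (v.adicCompletion ℚ) (k - algebraMap (𝓞 ℚ) ℚ (n : 𝓞 ℚ)) := by
    rw [map_sub, map_intCast, map_intCast]
    ring
  rw [h1]
  refine lt_of_le_of_lt (Valuation.map_add _ _ _) (max_lt ?_ ?_)
  · rw [Valuation.map_neg]; exact hk
  · rw [vv_coe]; exact ha

lemma w_int_lt (hp : p.Prime) (hpv : ((p : ℕ) : 𝓞 ℚ) ∈ v.asIdeal) {n : ℤ}
    (h : vv v (n : v.adicCompletion ℚ) < 1) : (p : ℤ) ∣ n := by
  apply dvd_of_mem hp hpv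
  have h1 : (n : v.adicCompletion ℚ) = algebraMap ℚ _ (algebraMap (𝓞 ℚ) ℚ (n : 𝓞 ℚ)) := by
    rw [map_intCast, map_intCast]
  rw [h1, vv_coe] at h
  exact (HeightOneSpectrum.valuation_lt_one_iff_mem v _).1 h

lemma w_int_le (n : ℤ) : vv v (n : v.adicCompletion ℚ) ≤ 1 := by
  have h1 : (n : v.adicCompletion ℚ) = algebraMap ℚ _ (algebraMap (𝓞 ℚ) ℚ (n : 𝓞 ℚ)) := by
    rw [map_intCast, map_intCast]
  rw [h1, vv_coe]
  exact v.valuation_le_one _

lemma w_int_one (hp : p.Prime) (hpv : ((p : ℕ) : 𝓞 ℚ) ∈ v.asIdeal) {n : ℤ}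
    (h : ¬ (p : ℤ) ∣ n) : vv v (n : v.adicCompletion ℚ) = 1 :=
  le_antisymm (w_int_le n) (not_lt.1 fun h1 => h (w_int_lt hp hpv h1))

lemma w_p (hp : p.Prime) (hpv : ((p : ℕ) : 𝓞 ℚ) ∈ v.asIdeal) :
    vv v (p : v.adicCompletion ℚ) = WithZero.exp (-1 : ℤ) := by
  have h1 : (p : v.adicCompletion ℚ) = algebraMap ℚ _ (algebraMap (𝓞 ℚ) ℚ (p : 𝓞 ℚ)) := by
    rw [map_natCast, map_natCast]
  rw [h1, vv_coe, HeightOneSpectrum.valuation_of_algebraMap]
  have hp0 : ((p : ℕ) : 𝓞 ℚ) ≠ 0 := by exact_mod_cast hp.ne_zero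
  apply HeightOneSpectrum.intValuation_singleton _ hp0
  have h2 : Prime ((p : ℕ) : 𝓞 ℚ) := by
    rw [← MulEquiv.prime_iff (Rat.ringOfIntegersEquiv : 𝓞 ℚ ≃+* ℤ)]
    rw [map_natCast]
    exact Nat.prime_iff_prime_int.1 hp
  have h : (Ideal.span {((p : ℕ) : 𝓞 ℚ)}).IsPrime := (Ideal.span_singleton_prime hp0).2 h2
  have hne : (Ideal.span {((p : ℕ) : 𝓞 ℚ)}) ≠ ⊥ := by
    rw [Ne, Ideal.span_singleton_eq_bot]
    exact hp0
  have hmax : (Ideal.span {((p : ℕ) : 𝓞 ℚ)}).IsMaximal := h.isMaximal hne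
  exact (hmax.eq_of_le v.isPrime.ne_top ((Ideal.span_singleton_le_iff_mem _).2 hpv)).symm

/-- an integer congruent to a square of the completion is a square modulo `p` -/
lemma sq_mod (hp : p.Prime) (hpv : ((p : ℕ) : 𝓞 ℚ) ∈ v.asIdeal) {g : ℤ}
    {s : v.adicCompletion ℚ} (h : vv v ((g : v.adicCompletion ℚ) - s ^ 2) < 1) :
    IsSquare ((g : ℤ) : ZMod p) := by
  have hcz := charZero_adic v
  have hs : vv v s ≤ 1 := by
    by_contra h1
    rw [not_le] at h1
    have h2 : vv v (s ^ 2) ≤ 1 := by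
      have h3 : s ^ 2 = (g : v.adicCompletion ℚ) - ((g : v.adicCompletion ℚ) - s ^ 2) := by ring
      rw [h3]
      exact (Valuation.map_sub _ _ _).trans (max_le (w_int_le g) h.le)
    rw [map_pow] at h2
    exact absurd h2 (not_le.2 (one_lt_pow₀ h1 two_ne_zero))
  obtain ⟨n, hn⟩ := approx hs
  have h1 : vv v ((g - n ^ 2 : ℤ) : v.adicCompletion ℚ) < 1 := by
    have e : ((g - n ^ 2 : ℤ) : v.adicCompletion ℚ) =
        ((g : v.adicCompletion ℚ) - s ^ 2) + (s - n) * (s + n) := by push_cast; ring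
    rw [e]
    refine w_add_lt_one h (w_mul_lt_one hn (w_add_le_one hs (w_int_le n)))
  have h2 := w_int_lt hp hpv h1
  rw [← ZMod.intCast_zmod_eq_zero_iff_dvd] at h2
  push_cast at h2
  refine ⟨(n : ZMod p), ?_⟩
  linear_combination h2

end

section gen

variable {L : Type} [Field L] [CharZero L] {w : Valuation L (WithZero (Multiplicative ℤ))}

lemma exp_le_one {a : ℤ} : WithZero.exp a ≤ (1 : WithZero (Multiplicative ℤ)) ↔ a ≤ 0 := by
  rw [← WithZero.exp_zero, WithZero.exp_le_exp]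

lemma exp_lt_one {a : ℤ} : WithZero.exp a < (1 : WithZero (Multiplicative ℤ)) ↔ a < 0 := by
  rw [← WithZero.exp_zero, WithZero.exp_lt_exp]

/-- `w (x ^ 2) = exp b` forces `b` to be even -/
lemma even_of_sq {y : L} {b : ℤ} (h : w (y ^ 2) = WithZero.exp b) : ∃ c : ℤ, b = 2 * c := by
  have hy : w y ≠ 0 := by
    intro h0
    rw [map_pow, h0, zero_pow two_ne_zero] at h
    exact WithZero.exp_ne_zero h.symm
  refine ⟨WithZero.log (w y), ?_⟩
  have h1 := congrArg WithZero.log h
  rw [map_pow, WithZero.log_pow, WithZero.log_exp] at h1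
  simpa using h1.symm

/-- large abscissas -/
lemma large {α β D m y : L} (hα : w α ≤ 1) (hβ : w β ≤ 1) {d e : ℤ} (hD : w D = WithZero.exp d)
    (hm : w m = WithZero.exp e) (hde : d < e) (hy : y ^ 2 = m * (m ^ 2 + α * D * m + β * D ^ 2)) :
    ∃ t : L, w t < 1 ∧ y ^ 2 = m ^ 3 * (1 + t) := by
  have hm0 : m ≠ 0 := by
    rintro rfl
    rw [map_zero] at hm
    exact WithZero.exp_ne_zero hm.symm
  have h1 : w (D / m) < 1 := by
    rw [map_div₀, hD, hm, ← WithZero.exp_sub, exp_lt_one]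
    omega
  refine ⟨(D / m) * (α + β * (D / m)), w_mul_lt_one h1 (w_add_le_one hα
    (w_mul_le_one hβ h1.le)), ?_⟩
  rw [hy]
  field_simp
  ring

/-- small abscissas -/
lemma small {α β D m y : L} (hα : w α ≤ 1) (hβ : w β = 1) {d e : ℤ} (hD : w D = WithZero.exp d)
    (hm : w m = WithZero.exp e) (hde : e < d) (hy : y ^ 2 = m * (m ^ 2 + α * D * m + β * D ^ 2)) :
    ∃ t : L, w t < 1 ∧ y ^ 2 = m * β * D ^ 2 * (1 + t) := by
  have hD0 : D ≠ 0 := by
    rintro rfl
    rw [map_zero] at hD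
    exact WithZero.exp_ne_zero hD.symm
  have hβ0 : β ≠ 0 := by
    rintro rfl
    rw [map_zero] at hβ
    exact zero_ne_one hβ
  have h1 : w (m / D) < 1 := by
    rw [map_div₀, hD, hm, ← WithZero.exp_sub, exp_lt_one]
    omega
  refine ⟨(m / D) * ((α + (m / D)) / β), w_mul_lt_one h1 ?_, ?_⟩
  · rw [map_div₀ w, hβ, div_one]
    exact w_add_le_one hα h1.le
  · rw [hy]
    field_simp
    ring

end gen

section

variable {v : HeightOneSpectrum (𝓞 ℚ)} {p : ℕ}

lemma w_ne_zero_exp {z : v.adicCompletion ℚ} (hz : z ≠ 0) : ∃ a : ℤ, vv v z = WithZero.exp a :=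
  ⟨WithZero.log (vv v z), (WithZero.exp_log ((Valuation.ne_zero_iff _).2 hz)).symm⟩

/-- the local condition at a prime dividing the twist -/
theorem loc (hp : p.Prime) (hpv : ((p : ℕ) : 𝓞 ℚ) ∈ v.asIdeal) {α β g N : ℤ}
    (hβ : ¬ (p : ℤ) ∣ β) (hβs : IsSquare ((β : ℤ) : ZMod p)) (hN : ¬ (p : ℤ) ∣ N)
    {z m : v.adicCompletion ℚ} (hz : z ≠ 0) (hm : (g : v.adicCompletion ℚ) * z ^ 2 = m)
    (h : m = 1 ∨ m = β * ((p : v.adicCompletion ℚ) * N) ^ 2 ∨ (m ≠ 0 ∧
      ∃ y : v.adicCompletion ℚ, y ^ 2 = m * (m ^ 2 + α * ((p : v.adicCompletion ℚ) * N) * m +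
        β * ((p : v.adicCompletion ℚ) * N) ^ 2))) :
    (¬ (p : ℤ) ∣ g → IsSquare ((g : ℤ) : ZMod p)) ∧
    ∀ g' : ℤ, g = p * g' → ¬ (p : ℤ) ∣ g' → ∃ t : ZMod p,
      ((g' : ZMod p) * t ^ 2) ^ 2 + (α : ZMod p) * N * ((g' : ZMod p) * t ^ 2) +
        (β : ZMod p) * N ^ 2 = 0 := by
  have := charZero_adic v
  have hF : Fact p.Prime := ⟨hp⟩
  have hwp := w_p hp hpv
  have hwN := w_int_one hp hpv hN
  have hwβ := w_int_one hp hpv hβ
  have hwα := w_int_le (v := v) α
  have hβ0 : ((β : ℤ) : ZMod p) ≠ 0 := by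
    rw [Ne, ZMod.intCast_zmod_eq_zero_iff_dvd]; exact hβ
  have hwD : vv v ((p : v.adicCompletion ℚ) * N) = WithZero.exp (-1 : ℤ) := by
    rw [map_mul, hwp, hwN, mul_one]
  set D : v.adicCompletion ℚ := (p : v.adicCompletion ℚ) * N with hD
  have hD0 : D ≠ 0 := by
    intro h0
    rw [h0, map_zero] at hwD
    exact WithZero.exp_ne_zero hwD.symm
  obtain ⟨a, ha⟩ := w_ne_zero_exp hz
  have ha2 : vv v (z ^ 2) = WithZero.exp (2 * a) := by
    rw [map_pow, ha, ← WithZero.exp_nsmul]
    congr 1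
  have hgβ : IsSquare ((g * β : ℤ) : ZMod p) → IsSquare ((g : ℤ) : ZMod p) := by
    rintro ⟨r, hr⟩
    obtain ⟨s, hs⟩ := hβs
    have hs0 : s ≠ 0 := by
      rintro rfl
      exact hβ0 (by rw [hs, mul_zero])
    refine ⟨r / s, ?_⟩
    push_cast at hr
    rw [hs] at hr
    field_simp
    linear_combination hr
  constructor
  · intro hg
    have hwg := w_int_one hp hpv hg
    have hg0 : (g : v.adicCompletion ℚ) ≠ 0 := by
      intro h0
      rw [h0, map_zero] at hwg
      exact zero_ne_one hwg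
    have hwm : vv v m = WithZero.exp (2 * a) := by
      rw [← hm, map_mul, hwg, one_mul, ha2]
    rcases h with h | h | ⟨hm0, y, hy⟩
    · apply sq_mod hp hpv (s := z⁻¹)
      have e : (g : v.adicCompletion ℚ) - z⁻¹ ^ 2 = 0 := by
        rw [h] at hm
        field_simp
        linear_combination hm
      rw [e, map_zero]
      exact zero_lt_one
    · apply hgβ
      apply sq_mod hp hpv (s := β * D / z)
      have e : ((g * β : ℤ) : v.adicCompletion ℚ) - (β * D / z) ^ 2 = 0 := by
        rw [h] at hm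
        push_cast
        field_simp
        linear_combination (β : v.adicCompletion ℚ) * hm
      rw [e, map_zero]
      exact zero_lt_one
    · rcases le_or_gt 0 a with ha0 | ha0
      · obtain ⟨t, ht, hyt⟩ := large (w := vv v) hwα hwβ.le hwD hwm (by omega) hy
        apply sq_mod hp hpv (s := y / (g * z ^ 3))
        have e : (g : v.adicCompletion ℚ) - (y / (g * z ^ 3)) ^ 2 = g * (-t) := by
          rw [div_pow, hyt, ← hm]
          field_simp
          ring
        rw [e, map_mul, hwg, one_mul, Valuation.map_neg]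
        exact ht
      · obtain ⟨t, ht, hyt⟩ := small (w := vv v) hwα hwβ hwD hwm (by omega) hy
        apply hgβ
        apply sq_mod hp hpv (s := y / (z * D))
        have e : ((g * β : ℤ) : v.adicCompletion ℚ) - (y / (z * D)) ^ 2 = g * β * (-t) := by
          rw [div_pow, hyt, ← hm]
          push_cast
          field_simp
          ring
        rw [e, map_mul, map_mul, hwg, hwβ, one_mul, one_mul, Valuation.map_neg]
        exact ht
  · intro g' hg' hg'p
    have hwg' := w_int_one hp hpv hg'p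
    have hgL : (g : v.adicCompletion ℚ) = (p : v.adicCompletion ℚ) * g' := by
      rw [hg']; push_cast; ring
    have hwm : vv v m = WithZero.exp (2 * a - 1) := by
      rw [← hm, map_mul, hgL, map_mul, hwg', mul_one, hwp, ha2, ← WithZero.exp_add]
      congr 1
      ring
    rcases h with h | h | ⟨hm0, y, hy⟩
    · exfalso
      rw [h, map_one, ← WithZero.exp_zero, WithZero.exp_inj] at hwm
      omega
    · exfalso
      rw [h, map_mul, hwβ, one_mul, map_pow, hwD, ← WithZero.exp_nsmul, WithZero.exp_inj] at hwm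
      simp at hwm
      omega
    · rcases lt_trichotomy a 0 with ha0 | ha0 | ha0
      · exfalso
        obtain ⟨t, ht, hyt⟩ := small (w := vv v) hwα hwβ hwD hwm (by omega) hy
        have h1 : vv v (y ^ 2) = WithZero.exp (2 * a - 1 + -2) := by
          rw [hyt, map_mul, map_mul, map_mul, hwβ, w_one_add ht, mul_one, mul_one, hwm, map_pow,
            hwD, ← WithZero.exp_nsmul, ← WithZero.exp_add]
          congr 1
        obtain ⟨c, hc⟩ := even_of_sq h1
        omega
      · subst ha0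
        have hwz : vv v z = 1 := by rw [ha, WithZero.exp_zero]
        obtain ⟨n, hn⟩ := approx hwz.le
        refine ⟨(n : ZMod p), ?_⟩
        set u : v.adicCompletion ℚ := g' * z ^ 2 with hu
        have hwu : vv v u = 1 := by rw [hu, map_mul, map_pow, hwg', hwz, one_pow, one_mul]
        have hmu : m = p * u := by rw [← hm, hgL, hu]; ring
        have hQle : vv v (u ^ 2 + α * N * u + β * N ^ 2) ≤ 1 :=
          w_add_le_one (w_add_le_one (w_pow_le_one hwu.le 2)
            (w_mul_le_one (w_mul_le_one hwα hwN.le) hwu.le))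
            (w_mul_le_one hwβ.le (w_pow_le_one hwN.le 2))
        have hQ : vv v (u ^ 2 + α * N * u + β * N ^ 2) < 1 := by
          refine lt_of_le_of_ne hQle fun hQ1 => ?_
          have h1 : vv v (y ^ 2) = WithZero.exp (-3 : ℤ) := by
            have e : y ^ 2 = p * p * p * (u * (u ^ 2 + α * N * u + β * N ^ 2)) := by
              rw [hy, hmu, hD]; ring
            rw [e, map_mul, map_mul, map_mul, map_mul, hQ1, hwu, hwp, ← WithZero.exp_add,
              ← WithZero.exp_add, mul_one, mul_one]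
            congr 1
          obtain ⟨c, hc⟩ := even_of_sq h1
          omega
        have hd : (p : ℤ) ∣ (g' * n ^ 2) ^ 2 + α * N * (g' * n ^ 2) + β * N ^ 2 := by
          apply w_int_lt hp hpv
          have hdu : vv v (u - g' * n ^ 2) < 1 := by
            have e : u - g' * (n : v.adicCompletion ℚ) ^ 2 = (z - n) * (g' * (z + n)) := by
              rw [hu]; ring
            rw [e]
            exact w_mul_lt_one hn (w_mul_le_one hwg'.le (w_add_le_one hwz.le (w_int_le n)))
          have hu' : vv v (g' * (n : v.adicCompletion ℚ) ^ 2) ≤ 1 :=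
            w_mul_le_one hwg'.le (w_pow_le_one (w_int_le n) 2)
          have e : ((((g' * n ^ 2) ^ 2 + α * N * (g' * n ^ 2) + β * N ^ 2 : ℤ)) :
              v.adicCompletion ℚ) = (u ^ 2 + α * N * u + β * N ^ 2) -
              (u - g' * n ^ 2) * (u + g' * n ^ 2 + α * N) := by
            push_cast
            ring
          rw [e]
          exact w_sub_lt_one hQ (w_mul_lt_one hdu (w_add_le_one (w_add_le_one hwu.le hu')
            (w_mul_le_one hwα hwN.le)))
        rw [← ZMod.intCast_zmod_eq_zero_iff_dvd] at hd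
        push_cast at hd
        exact hd
      · exfalso
        obtain ⟨t, ht, hyt⟩ := large (w := vv v) hwα hwβ.le hwD hwm (by omega) hy
        have h1 : vv v (y ^ 2) = WithZero.exp (3 * (2 * a - 1)) := by
          rw [hyt, map_mul, w_one_add ht, mul_one, map_pow, hwm, ← WithZero.exp_nsmul]
          congr 1
        obtain ⟨c, hc⟩ := even_of_sq h1
        omega

end

end Pool.Agent.Run7.h743.SX
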