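import Mathlib
import Pool.Agent.Run7.h743.SX.Loc
import Pool.Agent.Y31.XF.Inz

/-!
# The 2-part of the Selmer group of the quadratic twists of `X_0(14)` by split and inert primes
(helper743, for the joint work with helper701 on MP_9c97e9_nt)
-/

set_option autoImplicit false
set_option linter.unusedSectionVars false

attribute [-instance] DivisionRing.toRatAlgebra

open NumberField IsDedekindDomain

namespace Pool.Agent.Run7.h743.SX

open Pool.Agent.Y682 Pool.Agent.Y500.XD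
open Pool.Agent.TH841.NF.D (rk Sha)
open Pool.Agent.Y700 (WM)

open scoped Classical

/-- the primes which split in `ℚ(√-7)`, `ℚ(√2)` and `ℚ(i)` -/
def PS (p : ℕ) : Prop := p.Prime ∧ p % 8 = 1 ∧ (p % 7 = 1 ∨ p % 7 = 2 ∨ p % 7 = 4)

/-- the condition on the split primes `P` and the inert primes `S` -/
def Hyp (P S : Finset ℕ) : Prop := ∀ I ⊆ P, I.Nonempty → ∃ p ∈ P,
  (p ∉ I ∧ ¬ IsSquare (((∏ i ∈ I, i : ℕ)) : ZMod p)) ∨
  (p ∈ I ∧ ∀ x : ZMod p, x ^ 2 + 13 * (((∏ i ∈ P \ I, i) * ∏ q ∈ S, q : ℕ) : ZMod p) * x +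
    128 * (((∏ i ∈ P \ I, i) * ∏ q ∈ S, q : ℕ) : ZMod p) ^ 2 = 0 → ¬ IsSquare x)

/-! ### Rational numbers up to squares -/

lemma sqf {b : ℚ} (hb : b ≠ 0) : ∃ (d : ℤ) (c : ℚ), Squarefree d ∧ c ≠ 0 ∧ b = d * c ^ 2 := by
  obtain ⟨a, r, har, ha⟩ := Nat.sq_mul_squarefree (b.num * b.den).natAbs
  have hden : (b.den : ℚ) ≠ 0 := by exact_mod_cast b.den_nz
  have hnum : b.num ≠ 0 := Rat.num_ne_zero.2 hb
  have hden' : (b.den : ℤ) ≠ 0 := by exact_mod_cast b.den_nz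
  have hn0 : b.num * b.den ≠ 0 := mul_ne_zero hnum hden'
  have hb' : b * (b.den : ℚ) ^ 2 = ((b.num * b.den : ℤ) : ℚ) := by
    push_cast
    linear_combination (b.den : ℚ) * Rat.mul_den_eq_num b
  have hr0 : r ≠ 0 := by
    rintro rfl
    rw [zero_pow two_ne_zero, zero_mul] at har
    exact hn0 (Int.natAbs_eq_zero.1 har.symm)
  have hrq : (r : ℚ) ≠ 0 := by exact_mod_cast hr0
  have hasq : Squarefree (a : ℤ) := Int.squarefree_natCast.2 ha
  generalize (b.den : ℚ) = n at hb' hden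
  rcases Int.natAbs_eq (b.num * b.den) with h | h
  · refine ⟨a, r / n, hasq, div_ne_zero hrq hden, ?_⟩
    rw [← har] at h
    rw [h] at hb'
    push_cast at hb' ⊢
    field_simp
    linear_combination hb'
  · refine ⟨-a, r / n, ?_, div_ne_zero hrq hden, ?_⟩
    · intro x hx
      exact hasq x ((dvd_neg).1 hx)
    · rw [← har] at h
      rw [h] at hb'
      push_cast at hb' ⊢
      field_simp
      linear_combination hb'

lemma ev_not_dvd {v : HeightOneSpectrum (𝓞 ℚ)} {l : ℕ} (hl : l.Prime)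
    (hv : ((l : ℕ) : 𝓞 ℚ) ∈ v.asIdeal) {b c : ℚ} {d : ℤ} (hd : Squarefree d) (hc : c ≠ 0)
    (hb : b = d * c ^ 2) (hev : ∃ n : ℤ, v.valuation ℚ b = WithZero.exp (2 * n)) :
    ¬ (l : ℤ) ∣ d := by
  rintro ⟨d', rfl⟩
  have hd' : ¬ (l : ℤ) ∣ d' := by
    intro h
    have h1 := hd (l : ℤ) (mul_dvd_mul_left _ h)
    exact (Nat.prime_iff_prime_int.1 hl).not_isUnit h1
  obtain ⟨n, hn⟩ := hev
  have hc' : algebraMap ℚ (v.adicCompletion ℚ) c ≠ 0 := (map_ne_zero _).2 hc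
  obtain ⟨a, ha⟩ := w_ne_zero_exp hc'
  rw [← vv_coe, hb, map_mul, map_pow, map_mul, map_intCast, Int.cast_mul, map_mul,
    w_int_one hl hv hd', Int.cast_natCast, w_p hl hv, map_pow, ha, ← WithZero.exp_nsmul, mul_one,
    ← WithZero.exp_add, WithZero.exp_inj] at hn
  simp only [nsmul_eq_mul] at hn
  push_cast at hn
  omega

lemma decomp {d : ℤ} (hd : Squarefree d) {P : Finset ℕ} {l0 : ℕ}
    (hdiv : ∀ l : ℕ, l.Prime → (l : ℤ) ∣ d → l = l0 ∨ l ∈ P) :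
    ∃ I ⊆ P, ∃ k : ℕ, (k = 1 ∨ k = l0) ∧ d.natAbs = k * ∏ i ∈ I, i := by
  have hd' : Squarefree d.natAbs := Int.squarefree_natAbs.2 hd
  have h1 := Nat.prod_primeFactors_of_squarefree hd'
  have hI : ∀ l ∈ d.natAbs.primeFactors, l = l0 ∨ l ∈ P := by
    intro l hl
    obtain ⟨h2, h3, -⟩ := Nat.mem_primeFactors.1 hl
    exact hdiv l h2 (Int.natCast_dvd.2 h3)
  refine ⟨d.natAbs.primeFactors.erase l0, fun l hl => ?_, ?_⟩
  · obtain ⟨h2, h3⟩ := Finset.mem_erase.1 hl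
    exact (hI l h3).resolve_left h2
  · by_cases h : l0 ∈ d.natAbs.primeFactors
    · refine ⟨l0, Or.inr rfl, ?_⟩
      rw [Finset.mul_prod_erase _ (fun i => i) h]
      exact h1.symm
    · refine ⟨1, Or.inl rfl, ?_⟩
      rw [Finset.erase_eq_of_notMem h, one_mul]
      exact h1.symm

lemma not_dvd_prod {p : ℕ} (hp : p.Prime) {T : Finset ℕ} (hT : ∀ q ∈ T, q.Prime) (h : p ∉ T) :
    ¬ p ∣ ∏ q ∈ T, q := by
  intro hd
  obtain ⟨q, hq, hpq⟩ := (hp.prime.dvd_finsetProd_iff _).1 hd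
  exact h (((Nat.prime_dvd_prime_iff_eq hp (hT q hq)).1 hpq) ▸ hq)

/-! ### Squares modulo the split primes -/

section sq

variable {p : ℕ}

lemma PS.ne7 (h : PS p) : p ≠ 7 := by
  rintro rfl
  have := h.2.1
  omega

lemma PS.ne2 (h : PS p) : p ≠ 2 := by
  rintro rfl
  have := h.2.1
  omega

lemma PS.neg7 (h : PS p) : IsSquare (-7 : ZMod p) := by
  have : Fact p.Prime := ⟨h.1⟩
  exact (sq_seven p (by have := h.2.1; omega) h.ne7).2 h.2.2

lemma PS.two (h : PS p) : IsSquare (2 : ZMod p) := by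
  have : Fact p.Prime := ⟨h.1⟩
  exact (ZMod.exists_sq_eq_two_iff h.ne2).2 (Or.inl h.2.1)

lemma PS.negone (h : PS p) : IsSquare (-1 : ZMod p) := by
  have : Fact p.Prime := ⟨h.1⟩
  exact (ZMod.exists_sq_eq_neg_one_iff (p := p)).2 (by have := h.2.1; omega)

lemma PS.two_ne (h : PS p) : (2 : ZMod p) ≠ 0 := by
  have := cast_ne h.1 2 Nat.prime_two h.ne2
  exact_mod_cast this

lemma PS.seven_ne (h : PS p) : (7 : ZMod p) ≠ 0 := by
  have := cast_ne h.1 7 (by norm_num) h.ne7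
  exact_mod_cast this

/-- the roots of the two polynomials have the same quadratic character -/
lemma root_conv (h : PS p) {M x : ZMod p} (hM : M ≠ 0) (hx : IsSquare x)
    (he : x ^ 2 + -26 * M * x + -343 * M ^ 2 = 0) :
    ∃ x' : ZMod p, IsSquare x' ∧ x' ^ 2 + 13 * M * x' + 128 * M ^ 2 = 0 := by
  have : Fact p.Prime := ⟨h.1⟩
  obtain ⟨r, hr⟩ := hx
  obtain ⟨s0, hs0⟩ := h.two
  obtain ⟨i, hi⟩ := h.negone
  obtain ⟨j, hj⟩ := h.neg7
  have h2 := h.two_ne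
  have h7 := h.seven_ne
  have hx0 : x ≠ 0 := by
    rintro rfl
    have h1 : (7 : ZMod p) ^ 3 * M ^ 2 = 0 := by linear_combination -he
    exact mul_ne_zero (pow_ne_zero 3 h7) (pow_ne_zero 2 hM) h1
  have hr0 : r ≠ 0 := by
    rintro rfl
    exact hx0 (by rw [hr, mul_zero])
  obtain ⟨s, hs, hxs⟩ : ∃ s : ZMod p, s * s = 2 ∧ x = M * (13 + 16 * s) := by
    have h1 : (x - 13 * M - 16 * s0 * M) * (x - 13 * M + 16 * s0 * M) = 0 := by
      linear_combination he + 256 * M ^ 2 * hs0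
    rcases mul_eq_zero.1 h1 with h3 | h3
    · exact ⟨s0, hs0.symm, by linear_combination h3⟩
    · exact ⟨-s0, by rw [neg_mul_neg]; exact hs0.symm, by linear_combination h3⟩
  obtain ⟨ρ, hρ⟩ : ∃ ρ : ZMod p, ρ = (-13 + 7 * j) / 2 := ⟨_, rfl⟩
  have hρ2 : ρ ^ 2 + 13 * ρ + 128 = 0 := by
    rw [hρ]
    field_simp
    linear_combination -(49 : ZMod p) * hj
  refine ⟨M * ρ, ⟨i * (M * (ρ - 8 * s)) / r, ?_⟩, by linear_combination M ^ 2 * hρ2⟩
  have h3 : r * r * (M * ρ) = (i * (M * (ρ - 8 * s))) * (i * (M * (ρ - 8 * s))) := by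
    rw [← hr, hxs]
    have h4 : (ρ - 8 * s) * (ρ - 8 * s) = -ρ * (13 + 16 * s) := by
      linear_combination hρ2 + 64 * hs
    linear_combination M ^ 2 * h4 + (M * (ρ - 8 * s)) ^ 2 * hi
  rw [div_mul_div_comm, eq_div_iff (mul_ne_zero hr0 hr0)]
  linear_combination h3

end sq

/-! ### The local conditions -/

section main

variable {P S : Finset ℕ}

/-- the local condition at a split prime, in terms of the set `I` -/
lemma loc2 (hP : ∀ p ∈ P, PS p) (hS : ∀ q ∈ S, PQ q) {p : ℕ} (hpP : p ∈ P)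
    {v : HeightOneSpectrum (𝓞 ℚ)} (hpv : ((p : ℕ) : 𝓞 ℚ) ∈ v.asIdeal) {α β k : ℤ}
    (hβ : ¬ (p : ℤ) ∣ β) (hβs : IsSquare ((β : ℤ) : ZMod p)) (hk : ¬ (p : ℤ) ∣ k)
    (hks : IsSquare ((k : ℤ) : ZMod p)) {I : Finset ℕ} (hI : I ⊆ P)
    {z m : v.adicCompletion ℚ} (hz : z ≠ 0)
    (hm : ((k * ((∏ i ∈ I, i : ℕ) : ℤ) : ℤ) : v.adicCompletion ℚ) * z ^ 2 = m)
    (h : m = 1 ∨ m = β * (((∏ i ∈ P, i) * ∏ q ∈ S, q : ℕ) : v.adicCompletion ℚ) ^ 2 ∨ (m ≠ 0 ∧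
      ∃ y : v.adicCompletion ℚ, y ^ 2 = m * (m ^ 2 +
        α * (((∏ i ∈ P, i) * ∏ q ∈ S, q : ℕ) : v.adicCompletion ℚ) * m +
        β * (((∏ i ∈ P, i) * ∏ q ∈ S, q : ℕ) : v.adicCompletion ℚ) ^ 2))) :
    (p ∉ I → IsSquare (((∏ i ∈ I, i : ℕ)) : ZMod p)) ∧
    (p ∈ I → ∃ x : ZMod p, IsSquare x ∧
      x ^ 2 + (α : ZMod p) * (((∏ i ∈ P \ I, i) * ∏ q ∈ S, q : ℕ) : ZMod p) * x +
      (β : ZMod p) * (((∏ i ∈ P \ I, i) * ∏ q ∈ S, q : ℕ) : ZMod p) ^ 2 = 0) := by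
  have hp := (hP p hpP).1
  have hF : Fact p.Prime := ⟨hp⟩
  have hPp : ∀ q ∈ P, q.Prime := fun q hq => (hP q hq).1
  have hSp : ∀ q ∈ S, q.Prime := fun q hq => (hS q hq).1
  have hpS : p ∉ S := fun h' => by
    have h1 := (hP p hpP).2.1
    have h2 := (hS p h').2.1
    omega
  have hk0 : ((k : ℤ) : ZMod p) ≠ 0 := by
    rw [Ne, ZMod.intCast_zmod_eq_zero_iff_dvd]; exact hk
  have hnd : ∀ {T : Finset ℕ}, (∀ q ∈ T, q.Prime) → p ∉ T → ¬ (p : ℤ) ∣ ((∏ q ∈ T, q : ℕ) : ℤ) := by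
    intro T hT h' h''
    exact not_dvd_prod hp hT h' (Int.natCast_dvd_natCast.1 h'')
  have hpZ : Prime (p : ℤ) := Nat.prime_iff_prime_int.1 hp
  obtain ⟨N, hN⟩ : ∃ N : ℤ, N = ((∏ i ∈ P.erase p, i : ℕ) : ℤ) * ((∏ q ∈ S, q : ℕ) : ℤ) :=
    ⟨_, rfl⟩
  have hNp : ¬ (p : ℤ) ∣ N := by
    rw [hN]
    intro h'
    rcases hpZ.dvd_or_dvd h' with h1 | h1
    · exact hnd (fun q hq => hPp q (Finset.mem_of_mem_erase hq)) (Finset.notMem_erase p P) h1
    · exact hnd hSp hpS h1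
  have hDN : (((∏ i ∈ P, i) * ∏ q ∈ S, q : ℕ) : v.adicCompletion ℚ) = (p : v.adicCompletion ℚ) * N := by
    rw [hN, ← Finset.mul_prod_erase P (fun i => i) hpP]
    push_cast
    ring
  rw [hDN] at h
  obtain ⟨h1, h2⟩ := loc (p := p) hp hpv (α := α) (β := β) hβ hβs hNp hz hm h
  constructor
  · intro hpI
    have h3 : ¬ (p : ℤ) ∣ k * ((∏ i ∈ I, i : ℕ) : ℤ) := by
      intro h'
      rcases hpZ.dvd_or_dvd h' with h4 | h4
      · exact hk h4
      · exact hnd (fun q hq => hPp q (hI hq)) hpI h4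
    obtain ⟨r, hr⟩ := h1 h3
    obtain ⟨s, hs⟩ := hks
    have hs0 : s ≠ 0 := by
      rintro rfl
      exact hk0 (by rw [hs, mul_zero])
    refine ⟨r / s, ?_⟩
    rw [Int.cast_mul, hs, Int.cast_natCast] at hr
    field_simp
    linear_combination hr
  · intro hpI
    obtain ⟨H, hH⟩ : ∃ H : ℤ, H = ((∏ i ∈ I.erase p, i : ℕ) : ℤ) := ⟨_, rfl⟩
    obtain ⟨M, hM⟩ : ∃ M : ℕ, M = (∏ i ∈ P \ I, i) * ∏ q ∈ S, q := ⟨_, rfl⟩
    have hHp : ¬ (p : ℤ) ∣ H := by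
      rw [hH]
      exact hnd (fun q hq => hPp q (hI (Finset.mem_of_mem_erase hq))) (Finset.notMem_erase p I)
    have hH0 : ((H : ℤ) : ZMod p) ≠ 0 := by
      rw [Ne, ZMod.intCast_zmod_eq_zero_iff_dvd]; exact hHp
    have hg : k * ((∏ i ∈ I, i : ℕ) : ℤ) = p * (k * H) := by
      rw [hH, ← Finset.mul_prod_erase I (fun i => i) hpI]
      push_cast
      ring
    have hkH : ¬ (p : ℤ) ∣ k * H := by
      intro h'
      rcases hpZ.dvd_or_dvd h' with h4 | h4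
      · exact hk h4
      · exact hHp h4
    have hNM : N = M * H := by
      have h3 : (∏ i ∈ P \ I, i) * ∏ i ∈ I, i = ∏ i ∈ P, i := Finset.prod_sdiff hI
      rw [← Finset.mul_prod_erase P (fun i => i) hpP,
        ← Finset.mul_prod_erase I (fun i => i) hpI] at h3
      have h4 : (∏ i ∈ P \ I, i) * ∏ i ∈ I.erase p, i = ∏ i ∈ P.erase p, i := by
        apply Nat.eq_of_mul_eq_mul_left hp.pos
        rw [← h3]
        ring
      rw [hN, hM, hH, ← h4]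
      push_cast
      ring
    obtain ⟨t, ht⟩ := h2 (k * H) hg hkH
    obtain ⟨s, hs⟩ := hks
    refine ⟨(s * t) * (s * t), ⟨s * t, rfl⟩, ?_⟩
    rw [hNM] at ht
    push_cast at ht
    rw [hs] at ht
    have h5 : (H : ZMod p) ^ 2 * ((s * t * (s * t)) ^ 2 + (α : ZMod p) * (M : ZMod p) *
        (s * t * (s * t)) + (β : ZMod p) * (M : ZMod p) ^ 2) = 0 := by
      linear_combination ht
    have h6 := (mul_eq_zero.1 h5).resolve_left (pow_ne_zero 2 hH0)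
    rw [← hM]
    exact h6

end main

end Pool.Agent.Run7.h743.SX
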