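import Mathlib
import Pool.Agent.Run7.h743.SX.Sel

/-!
# The 2-part of the Selmer group of the quadratic twists of `X_0(14)` by split and inert primes,
second part (helper743, for the joint work with helper701 on MP_9c97e9_nt)
-/

set_option autoImplicit false
set_option linter.unusedSectionVars false

attribute [-instance] DivisionRing.toRatAlgebra

open NumberField IsDedekindDomain

namespace Pool.Agent.Run7.h743.SX

open Pool.Agent.Y682 Pool.Agent.Y500.XD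
open Pool.Agent.TH841.NF.D (rk Sha)
open Pool.Agent.Y700 (WM)

open scoped Classical

/-- the twisting number -/
def DD (P S : Finset ℕ) : ℕ := (∏ i ∈ P, i) * ∏ q ∈ S, q

section main

variable {P S : Finset ℕ}

lemma prod_mod' (P : Finset ℕ) (hP : ∀ p ∈ P, PS p) : (∏ p ∈ P, p) % 4 = 1 := by
  induction P using Finset.induction_on with
  | empty => simp
  | insert a T ha ih =>
    rw [Finset.prod_insert ha, Nat.mul_mod, ih fun q hq => hP q (Finset.mem_insert_of_mem hq)]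
    have := (hP a (Finset.mem_insert_self _ _)).2.1
    omega

lemma DD_mod (hP : ∀ p ∈ P, PS p) (hS : ∀ q ∈ S, PQ q) : DD P S % 4 = 1 := by
  unfold DD
  rw [Nat.mul_mod, prod_mod' P hP, prod_mod S hS]

lemma DD_ne (hP : ∀ p ∈ P, PS p) (hS : ∀ q ∈ S, PQ q) : DD P S ≠ 0 := by
  have := DD_mod hP hS
  omega

lemma DD_mem {v : HeightOneSpectrum (𝓞 ℚ)} (hv : ((DD P S : ℕ) : 𝓞 ℚ) ∈ v.asIdeal) :
    (∃ p ∈ P, ((p : ℕ) : 𝓞 ℚ) ∈ v.asIdeal) ∨ ∃ q ∈ S, ((q : ℕ) : 𝓞 ℚ) ∈ v.asIdeal := by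
  unfold DD at hv
  rw [Nat.cast_mul, Nat.cast_prod, Nat.cast_prod] at hv
  rcases v.isPrime.mem_or_mem hv with h | h
  · exact Or.inl ((Ideal.IsPrime.prod_mem_iff (hp := v.isPrime)).1 h)
  · exact Or.inr ((Ideal.IsPrime.prod_mem_iff (hp := v.isPrime)).1 h)

lemma val_int_le' (v : HeightOneSpectrum (𝓞 ℚ)) (n : ℤ) : v.valuation ℚ (n : ℚ) ≤ 1 := by
  have h1 : (n : ℚ) = algebraMap (𝓞 ℚ) ℚ (n : 𝓞 ℚ) := (map_intCast _ _).symm
  rw [h1]
  exact v.valuation_le_one _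

lemma val_int_one' {v : HeightOneSpectrum (𝓞 ℚ)} {n : ℤ} (h : (n : 𝓞 ℚ) ∉ v.asIdeal) :
    v.valuation ℚ (n : ℚ) = 1 := by
  have h1 : (n : ℚ) = algebraMap (𝓞 ℚ) ℚ (n : 𝓞 ℚ) := (map_intCast _ _).symm
  rw [h1]
  exact (HeightOneSpectrum.valuation_eq_one_iff_notMem v).2 h

/-- evenness of the first class -/
lemma ev1 (hP : ∀ p ∈ P, PS p) (hS : ∀ q ∈ S, PQ q) {b : ℚ} (hb : b ≠ 0)
    (hL : LL1 (13 * ((DD P S : ℕ) : ℚ)) (128 * ((DD P S : ℕ) : ℚ) ^ 2) b)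
    {v : HeightOneSpectrum (𝓞 ℚ)} (h2 : (2 : 𝓞 ℚ) ∉ v.asIdeal)
    (hPv : ∀ p ∈ P, ((p : ℕ) : 𝓞 ℚ) ∉ v.asIdeal) :
    ∃ n : ℤ, v.valuation ℚ b = WithZero.exp (2 * n) := by
  have hD0 : ((DD P S : ℕ) : ℚ) ≠ 0 := by exact_mod_cast DD_ne hP hS
  by_cases hDv : ((DD P S : ℕ) : 𝓞 ℚ) ∈ v.asIdeal
  · obtain ⟨p, hp, hpv⟩ | ⟨q, hq, hqv⟩ := DD_mem hDv
    · exact absurd hpv (hPv p hp)
    · refine even_b1_tw1 hb v (hL.1 v) ⟨val_two' h2, ((DD P S : ℕ) : ℚ), 13, 128, hD0, by ring,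
        by ring, ?_, ?_, fun x hx => ?_⟩
      · have := val_int_le' v 13
        exact_mod_cast this
      · have := val_int_le' v 128
        exact_mod_cast this
      · have h3 := nsq_of_int' (v := v) (β := ((-343 : ℤ) : 𝓞 ℚ)) (fun y hy => by
          obtain ⟨n, rfl⟩ := int_of y
          have h1 : ((n ^ 2 + 343 : ℤ) : 𝓞 ℚ) ∈ v.asIdeal := by
            have : ((n ^ 2 + 343 : ℤ) : 𝓞 ℚ) = (n : 𝓞 ℚ) ^ 2 - ((-343 : ℤ) : 𝓞 ℚ) := by
              push_cast; ring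
            rw [this]; exact hy
          exact no343 (hS q hq) n (dvd_of_mem (hS q hq).1 hqv h1)) x hx
        rw [map_intCast] at h3
        have e : x ^ 2 - ((13 : ℚ) ^ 2 - 4 * 128) = x ^ 2 - ((-343 : ℤ) : ℚ) := by
          push_cast; ring
        rw [e]
        exact h3
  · obtain ⟨k, hk⟩ : ∃ k : ℕ, DD P S = 4 * k + 1 := ⟨DD P S / 4, by have := DD_mod hP hS; omega⟩
    have hkq : ((DD P S : ℕ) : ℚ) = 4 * k + 1 := by rw [hk]; push_cast; ring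
    refine even_b1 (s := 1) (u := ((13 * k + 3 : ℤ) : ℚ))
      (C := 8 * ((DD P S : ℕ) : ℚ) ^ 2) hb v (hL.1 v) ?_ (map_one _).le
      (val_int_le' v _) ?_ ?_
    · rw [hkq]; push_cast; ring
    · ring
    · have h4 : (8 * ((DD P S : ℕ) : ℚ) ^ 2) = ((8 * (DD P S : ℤ) ^ 2 : ℤ) : ℚ) := by push_cast; ring
      rw [h4]
      apply val_int_one'
      intro h
      have h5 : ((8 * (DD P S : ℤ) ^ 2 : ℤ) : 𝓞 ℚ) = 2 ^ 3 * ((DD P S : ℕ) : 𝓞 ℚ) ^ 2 := by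
        push_cast; ring
      rw [h5] at h
      rcases v.isPrime.mem_or_mem h with h | h
      · exact h2 (v.isPrime.mem_of_pow_mem 3 h)
      · exact hDv (v.isPrime.mem_of_pow_mem 2 h)

lemma seven_notMem {v : HeightOneSpectrum (𝓞 ℚ)} {q : ℕ} (hq : PQ q)
    (hqv : ((q : ℕ) : 𝓞 ℚ) ∈ v.asIdeal) : (2 : 𝓞 ℚ) ∉ v.asIdeal := by
  intro h2
  have h3 := dvd_of_mem hq.1 hqv (m := 2) (by exact_mod_cast h2)
  have h4 : q ∣ 2 := by exact_mod_cast h3
  have h5 := (Nat.prime_dvd_prime_iff_eq hq.1 Nat.prime_two).1 h4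
  have := hq.2.1
  omega

/-- the second class is unramified -/
lemma unr2 (hP : ∀ p ∈ P, PS p) (hS : ∀ q ∈ S, PQ q) {b : ℚ} (hb : b ≠ 0)
    (hL : LL2 (13 * ((DD P S : ℕ) : ℚ)) (128 * ((DD P S : ℕ) : ℚ) ^ 2) b)
    {v : HeightOneSpectrum (𝓞 ℚ)} (h7 : ((7 : ℕ) : 𝓞 ℚ) ∉ v.asIdeal)
    (hPv : ∀ p ∈ P, ((p : ℕ) : 𝓞 ℚ) ∉ v.asIdeal) : UnrC (v.valuation ℚ) b := by
  have hD0 : ((DD P S : ℕ) : ℚ) ≠ 0 := by exact_mod_cast DD_ne hP hS
  by_cases hDv : ((DD P S : ℕ) : 𝓞 ℚ) ∈ v.asIdeal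
  · obtain ⟨p, hp, hpv⟩ | ⟨q, hq, hqv⟩ := DD_mem hDv
    · exact absurd hpv (hPv p hp)
    · have h2 := seven_notMem (hS q hq) hqv
      have hv2 := val_two' h2
      have h4 : v.valuation ℚ 4 = 1 := by rw [w_four, hv2, one_mul]
      have h := even_b2_tw2 (A := 13 * ((DD P S : ℕ) : ℚ)) (B := 128 * ((DD P S : ℕ) : ℚ) ^ 2)
        hb v (hL.1 v) ⟨hv2, ((DD P S : ℕ) : ℚ), 13, 128, hD0, by ring,
        by ring, by have := val_int_le' v 13; exact_mod_cast this,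
        by have := val_int_le' v 128; exact_mod_cast this, fun x hx => by
          have h3 := nsq_of_int' (v := v) (β := ((8 : ℤ) : 𝓞 ℚ)) (fun y hy => by
            obtain ⟨n, rfl⟩ := int_of y
            have h1 : ((n ^ 2 - 8 : ℤ) : 𝓞 ℚ) ∈ v.asIdeal := by
              have : ((n ^ 2 - 8 : ℤ) : 𝓞 ℚ) = (n : 𝓞 ℚ) ^ 2 - ((8 : ℤ) : 𝓞 ℚ) := by
                push_cast; ring
              rw [this]; exact hy
            exact no8 (hS q hq) n (dvd_of_mem (hS q hq).1 hqv h1)) (x / 4) (by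
              rw [map_div₀, h4, div_one]; exact hx)
          rw [map_intCast] at h3
          have e : x ^ 2 - (128 : ℚ) = 4 * 4 * ((x / 4) ^ 2 - ((8 : ℤ) : ℚ)) := by
            push_cast; ring
          rw [e, map_mul, map_mul, h4, one_mul, one_mul]
          exact h3⟩
      obtain ⟨b', rfl⟩ : ∃ b' : ℚˣ, (b' : ℚ) = b := ⟨Units.mk0 b hb, rfl⟩
      exact unrC_of_par hv2 (ev_iff.1 h)
  · obtain ⟨k, hk⟩ : ∃ k : ℕ, DD P S = 4 * k + 1 := ⟨DD P S / 4, by have := DD_mod hP hS; omega⟩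
    have hkq : ((DD P S : ℕ) : ℚ) = 4 * k + 1 := by rw [hk]; push_cast; ring
    refine unr_b2 (s := 1) (u := ((13 * k + 3 : ℤ) : ℚ))
      (C := ((8 * (DD P S : ℤ) ^ 2 : ℤ) : ℚ)) v (hL.1 v) ?_ (map_one _).le
      (val_int_le' v _) ?_ (val_int_le' v _) ?_
    · rw [hkq]; push_cast; ring
    · push_cast; ring
    · have h4 : (13 * ((DD P S : ℕ) : ℚ)) ^ 2 - 4 * (128 * ((DD P S : ℕ) : ℚ) ^ 2) =
          ((-343 * (DD P S : ℤ) ^ 2 : ℤ) : ℚ) := by push_cast; ring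
      rw [h4]
      apply val_int_one'
      intro h
      have h5 : ((-343 * (DD P S : ℤ) ^ 2 : ℤ) : 𝓞 ℚ) =
          -(((7 : ℕ) : 𝓞 ℚ) ^ 3 * ((DD P S : ℕ) : 𝓞 ℚ) ^ 2) := by
        push_cast; ring
      rw [h5, neg_mem_iff] at h
      rcases v.isPrime.mem_or_mem h with h | h
      · exact h7 (v.isPrime.mem_of_pow_mem 3 h)
      · exact hDv (v.isPrime.mem_of_pow_mem 2 h)

lemma notMem_of_ne {v : HeightOneSpectrum (𝓞 ℚ)} {l q : ℕ} (hl : l.Prime)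
    (hlv : ((l : ℕ) : 𝓞 ℚ) ∈ v.asIdeal) (hq : q.Prime) (h : l ≠ q) :
    ((q : ℕ) : 𝓞 ℚ) ∉ v.asIdeal := by
  intro h'
  have h3 := dvd_of_mem hl hlv (m := q) (by exact_mod_cast h')
  exact h ((Nat.prime_dvd_prime_iff_eq hl hq).1 (by exact_mod_cast h3))

lemma PS.ndvd {p : ℕ} (h : PS p) {l : ℕ} (hl : l.Prime) (hne : p ≠ l) (n : ℕ) :
    ¬ (p : ℤ) ∣ ((l ^ n : ℕ) : ℤ) := by
  intro h'
  have h1 : p ∣ l ^ n := by exact_mod_cast h'
  exact hne ((Nat.prime_dvd_prime_iff_eq h.1 hl).1 (h.1.dvd_of_dvd_pow h1))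

/-- the first Selmer group -/
theorem U_main (hP : ∀ p ∈ P, PS p) (hS : ∀ q ∈ S, PQ q) (H : Hyp P S) {b : ℚ} (hb : b ≠ 0)
    (hL : LL1 (13 * ((DD P S : ℕ) : ℚ)) (128 * ((DD P S : ℕ) : ℚ) ^ 2) b) :
    ∃ c : ℚ, b = c ^ 2 ∨ b = 2 * c ^ 2 := by
  have hDR : (0 : ℝ) < ((DD P S : ℕ) : ℝ) := by
    exact_mod_cast Nat.pos_of_ne_zero (DD_ne hP hS)
  have hpos : 0 < b := by
    have h1 := pos_b1 hL.2 (Rat.castHom ℝ) (by
      simp only [map_mul, map_pow, map_natCast, map_ofNat]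
      positivity) (Or.inr (by
      simp only [map_mul, map_pow, map_natCast, map_ofNat]
      have h2 : (0 : ℝ) < ((DD P S : ℕ) : ℝ) ^ 2 := by positivity
      nlinarith))
    rw [Rat.coe_castHom] at h1
    exact_mod_cast h1
  obtain ⟨d, c, hd, hc, hbd⟩ := sqf hb
  have hdiv : ∀ l : ℕ, l.Prime → (l : ℤ) ∣ d → l = 2 ∨ l ∈ P := by
    intro l hl hld
    by_contra hcon
    rw [not_or] at hcon
    obtain ⟨v, hv⟩ := place l hl
    have hlv : ((l : ℕ) : 𝓞 ℚ) ∈ v.asIdeal := (hv v).2 rfl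
    refine ev_not_dvd hl hlv hd hc hbd (ev1 hP hS hb hL ?_ ?_) hld
    · have := notMem_of_ne hl hlv Nat.prime_two hcon.1
      exact_mod_cast this
    · intro p hp
      exact notMem_of_ne hl hlv (hP p hp).1 (fun h => hcon.2 (h ▸ hp))
  obtain ⟨I, hI, k, hk, hdk⟩ := decomp hd hdiv
  have hd0 : 0 < d := by
    have h1 : 0 < (d : ℚ) := by
      rw [hbd] at hpos
      exact (pos_iff_pos_of_mul_pos hpos).2 (by positivity)
    exact_mod_cast h1
  have hdk' : d = (k : ℤ) * ((∏ i ∈ I, i : ℕ) : ℤ) := by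
    have h1 : (d.natAbs : ℤ) = d := Int.natAbs_of_nonneg hd0.le
    rw [← h1, hdk]
    push_cast
    ring
  by_cases hI0 : I.Nonempty
  · exfalso
    obtain ⟨p, hpP, hH⟩ := H I hI hI0
    have hps := hP p hpP
    obtain ⟨v, hv⟩ := place p hps.1
    have hpv : ((p : ℕ) : 𝓞 ℚ) ∈ v.asIdeal := (hv v).2 rfl
    have := charZero_adic v
    obtain ⟨z, m, hz, hzm, hm⟩ := hL.1 v
    have hcL : algebraMap ℚ (v.adicCompletion ℚ) c ≠ 0 := (map_ne_zero _).2 hc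
    have h128 : ((128 : ℤ) : ZMod p) = 8 * 8 * 2 := by push_cast; norm_num
    obtain ⟨h1, h2⟩ := loc2 hP hS hpP hpv (α := 13) (β := 128) (k := k)
      (by have := hps.ndvd Nat.prime_two hps.ne2 7; norm_num at this; exact this)
      (by
        obtain ⟨s, hs⟩ := hps.two
        exact ⟨8 * s, by rw [h128, hs]; ring⟩)
      (by
        rcases hk with rfl | rfl
        · have := hps.ndvd Nat.prime_two hps.ne2 0; exact_mod_cast this
        · have := hps.ndvd Nat.prime_two hps.ne2 1; exact_mod_cast this)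
      (by
        rcases hk with rfl | rfl
        · exact ⟨1, by push_cast; ring⟩
        · have := hps.two; exact_mod_cast this) hI
      (z := algebraMap ℚ (v.adicCompletion ℚ) c * z) (m := m) (mul_ne_zero hcL hz)
      (by
        rw [← hzm, hbd, hdk', map_mul, map_pow, map_intCast, mul_pow, ← mul_assoc])
      (by
        rcases hm with hm | hm | ⟨hm0, y, hy⟩
        · exact Or.inl hm
        · refine Or.inr (Or.inl ?_)
          rw [hm, map_mul, map_pow, map_natCast, map_ofNat]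
          unfold DD
          push_cast
          ring
        · refine Or.inr (Or.inr ⟨hm0, y, ?_⟩)
          rw [hy, map_mul, map_mul, map_pow, map_natCast, map_ofNat, map_ofNat]
          unfold DD
          push_cast
          ring)
    rcases hH with ⟨h3, h4⟩ | ⟨h3, h4⟩
    · exact h4 (h1 h3)
    · obtain ⟨x, hx, hx2⟩ := h2 h3
      refine h4 x ?_ hx
      rw [← hx2]
      push_cast
      ring
  · rw [Finset.not_nonempty_iff_eq_empty] at hI0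
    rw [hI0, Finset.prod_empty] at hdk'
    rcases hk with rfl | rfl
    · exact ⟨c, Or.inl (by rw [hbd, hdk']; push_cast; ring)⟩
    · exact ⟨c, Or.inr (by rw [hbd, hdk']; push_cast; ring)⟩

lemma unrC_prime {v : HeightOneSpectrum (𝓞 ℚ)} {n : ℤ} {k : ℤ} (hn : n = 4 * k + 1)
    (h : (n : 𝓞 ℚ) ∉ v.asIdeal) : UnrC (v.valuation ℚ) (n : ℚ) := by
  refine ⟨1, 1, (k : ℚ), one_ne_zero, ?_, ?_, (map_one _).le, val_int_le' v _⟩
  · rw [hn]; push_cast; ring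
  · rw [one_pow, mul_one]
    exact val_int_one' h

lemma unrC_prod {v : HeightOneSpectrum (𝓞 ℚ)} {I : Finset ℕ} (hI : ∀ p ∈ I, PS p)
    (h : ∀ p ∈ I, ((p : ℕ) : 𝓞 ℚ) ∉ v.asIdeal) :
    UnrC (v.valuation ℚ) (((∏ i ∈ I, i : ℕ) : ℕ) : ℚ) := by
  induction I using Finset.induction_on with
  | empty =>
    rw [Finset.prod_empty, Nat.cast_one, ← one_pow 2]
    exact UnrC.sq one_ne_zero
  | insert a T ha ih =>
    rw [Finset.prod_insert ha, Nat.cast_mul]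
    refine UnrC.mul ?_ (ih (fun p hp => hI p (Finset.mem_insert_of_mem hp))
      fun p hp => h p (Finset.mem_insert_of_mem hp))
    have h1 := (hI a (Finset.mem_insert_self _ _)).2.1
    have h2 := unrC_prime (v := v) (n := (a : ℤ)) (k := ((a / 4 : ℕ) : ℤ)) (by omega) (by
      have := h a (Finset.mem_insert_self _ _)
      exact_mod_cast this)
    exact_mod_cast h2

/-- `-1` is ramified somewhere -/
lemma neg_one_unr (h : ∀ v : HeightOneSpectrum (𝓞 ℚ), UnrC (v.valuation ℚ) (-1 : ℚ)) : False := by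
  have hodd : Odd (Nat.card (NCl ℚ)) := by
    have h1 : Nat.card (NCl ℚ) = 1 := by
      rw [Nat.card_eq_one_iff_unique]
      exact ⟨⟨fun x y => (ncl_one x).trans (ncl_one y).symm⟩, ⟨1⟩⟩
    rw [h1]
    exact odd_one
  obtain ⟨y, hy⟩ := sq_of_unrC hodd (-1 : ℚˣ) (fun v => by
    rw [Units.val_neg, Units.val_one]; exact h v)
  have h2 := congrArg Units.val hy
  rw [Units.val_pow_eq_pow_val, Units.val_neg, Units.val_one] at h2
  nlinarith [sq_nonneg (y : ℚ)]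

/-- the second Selmer group -/
theorem V_main (hP : ∀ p ∈ P, PS p) (hS : ∀ q ∈ S, PQ q) (H : Hyp P S) {b : ℚ} (hb : b ≠ 0)
    (hL : LL2 (13 * ((DD P S : ℕ) : ℚ)) (128 * ((DD P S : ℕ) : ℚ) ^ 2) b) :
    ∃ c : ℚ, b = c ^ 2 ∨ b = -7 * c ^ 2 := by
  obtain ⟨d, c, hd, hc, hbd⟩ := sqf hb
  have hdiv : ∀ l : ℕ, l.Prime → (l : ℤ) ∣ d → l = 7 ∨ l ∈ P := by
    intro l hl hld
    by_contra hcon
    rw [not_or] at hcon
    obtain ⟨v, hv⟩ := place l hl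
    have hlv : ((l : ℕ) : 𝓞 ℚ) ∈ v.asIdeal := (hv v).2 rfl
    have hun := unr2 hP hS hb hL (v := v) (notMem_of_ne hl hlv (by norm_num) hcon.1)
      (fun p hp => notMem_of_ne hl hlv (hP p hp).1 (fun h => hcon.2 (h ▸ hp)))
    have hev : Ev v ((Units.mk0 b hb : ℚˣ) : ℚ) :=
      ev_iff.2 (par_zero_of_unrC (x := Units.mk0 b hb) hun)
    exact ev_not_dvd hl hlv hd hc hbd hev hld
  obtain ⟨I, hI, k, hk, hdk⟩ := decomp hd hdiv
  obtain ⟨k', hk', hkk⟩ : ∃ k' : ℤ, (k' = 1 ∨ k' = -7) ∧ (k' = k ∨ k' = -k) := by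
    rcases hk with rfl | rfl
    · exact ⟨1, Or.inl rfl, Or.inl rfl⟩
    · exact ⟨-7, Or.inr rfl, Or.inr rfl⟩
  have hIP : ∀ p ∈ I, PS p := fun p hp => hP p (hI hp)
  have hprod0 : (∏ i ∈ I, i : ℕ) ≠ 0 := Finset.prod_ne_zero_iff.2 fun i hi => (hIP i hi).1.ne_zero
  have hdk' : d = k' * ((∏ i ∈ I, i : ℕ) : ℤ) ∨ d = -(k' * ((∏ i ∈ I, i : ℕ) : ℤ)) := by
    have h1 : (d.natAbs : ℤ) = k * ((∏ i ∈ I, i : ℕ) : ℤ) := by
      rw [hdk]
      push_cast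
      ring
    rcases Int.natAbs_eq d with h2 | h2 <;> rcases hkk with h3 | h3 <;> rw [h1] at h2 <;> rw [h3]
    · exact Or.inl h2
    · exact Or.inr (by rw [h2]; ring)
    · exact Or.inr h2
    · exact Or.inl (by rw [h2]; ring)
  have hk'0 : k' ≠ 0 := by rcases hk' with rfl | rfl <;> norm_num
  have hdk'' : d = k' * ((∏ i ∈ I, i : ℕ) : ℤ) := by
    rcases hdk' with h | h
    · exact h
    · exfalso
      apply neg_one_unr
      intro v
      by_cases h7 : ((7 : ℕ) : 𝓞 ℚ) ∈ v.asIdeal ∨ ∃ p ∈ P, ((p : ℕ) : 𝓞 ℚ) ∈ v.asIdeal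
      · have h2 : (2 : 𝓞 ℚ) ∉ v.asIdeal := by
          rcases h7 with h7 | ⟨p, hp, hpv⟩
          · have := notMem_of_ne (l := 7) (q := 2) (by norm_num) h7 Nat.prime_two (by norm_num)
            exact_mod_cast this
          · have := notMem_of_ne (hP p hp).1 hpv Nat.prime_two (hP p hp).ne2
            exact_mod_cast this
        refine UnrC.of_even (t := 1) one_ne_zero ?_ (by rw [w_four, val_two' h2, one_mul])
        rw [one_pow, mul_one, Valuation.map_neg, map_one]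
      · rw [not_or] at h7
        obtain ⟨h7, hPv⟩ := h7
        have hPv' : ∀ p ∈ P, ((p : ℕ) : 𝓞 ℚ) ∉ v.asIdeal := fun p hp hpv => hPv ⟨p, hp, hpv⟩
        have hun := unr2 hP hS hb hL (v := v) h7 hPv'
        have hk1 : UnrC (v.valuation ℚ) ((k' : ℤ) : ℚ) := by
          rcases hk' with rfl | rfl
          · rw [Int.cast_one, ← one_pow 2]
            exact UnrC.sq one_ne_zero
          · refine unrC_prime (k := -2) (by norm_num) ?_
            have h8 : ((-7 : ℤ) : 𝓞 ℚ) = -((7 : ℕ) : 𝓞 ℚ) := by push_cast; ring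
            rw [h8, neg_mem_iff]
            exact h7
        have hI1 := unrC_prod hIP (fun p hp => hPv' p (hI hp))
        have hall := hun.mul (hk1.mul hI1)
        have hk'q : ((k' : ℤ) : ℚ) ≠ 0 := by exact_mod_cast hk'0
        have hprodq : (((∏ i ∈ I, i : ℕ) : ℕ) : ℚ) ≠ 0 := by exact_mod_cast hprod0
        refine hall.of_eq (y := (((k' : ℤ) : ℚ) * (((∏ i ∈ I, i : ℕ) : ℕ) : ℚ) * c)⁻¹)
          (inv_ne_zero (mul_ne_zero (mul_ne_zero hk'q hprodq) hc)) ?_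
        rw [hbd, h, Int.cast_neg, Int.cast_mul, Int.cast_natCast]
        generalize (((∏ i ∈ I, i : ℕ) : ℕ) : ℚ) = w at hprodq ⊢
        field_simp
  by_cases hI0 : I.Nonempty
  · exfalso
    obtain ⟨p, hpP, hH⟩ := H I hI hI0
    have hps := hP p hpP
    have hF : Fact p.Prime := ⟨hps.1⟩
    obtain ⟨v, hv⟩ := place p hps.1
    have hpv : ((p : ℕ) : 𝓞 ℚ) ∈ v.asIdeal := (hv v).2 rfl
    have := charZero_adic v
    obtain ⟨z, m, hz, hzm, hm⟩ := hL.1 v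
    have hcL : algebraMap ℚ (v.adicCompletion ℚ) c ≠ 0 := (map_ne_zero _).2 hc
    have h343 : ((-343 : ℤ) : ZMod p) = 7 * 7 * (-7) := by push_cast; norm_num
    obtain ⟨h1, h2⟩ := loc2 hP hS hpP hpv (α := -26) (β := -343) (k := k')
      (by
        have := hps.ndvd (l := 7) (by norm_num) hps.ne7 3
        norm_num at this
        rw [dvd_neg]
        exact this)
      (by
        obtain ⟨s, hs⟩ := hps.neg7
        exact ⟨7 * s, by rw [h343, hs]; ring⟩)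
      (by
        rcases hk' with rfl | rfl
        · have := hps.ndvd Nat.prime_two hps.ne2 0; exact_mod_cast this
        · have := hps.ndvd (l := 7) (by norm_num) hps.ne7 1
          rw [dvd_neg]
          exact_mod_cast this)
      (by
        rcases hk' with rfl | rfl
        · exact ⟨1, by push_cast; ring⟩
        · have := hps.neg7; exact_mod_cast this) hI
      (z := algebraMap ℚ (v.adicCompletion ℚ) c * z) (m := m) (mul_ne_zero hcL hz)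
      (by
        rw [← hzm, hbd, hdk'', map_mul, map_pow, map_intCast, mul_pow, ← mul_assoc])
      (by
        rcases hm with hm | hm | ⟨hm0, y, hy⟩
        · exact Or.inl hm
        · refine Or.inr (Or.inl ?_)
          rw [hm]
          simp only [map_mul, map_pow, map_natCast, map_ofNat]
          unfold DD
          push_cast
          ring
        · refine Or.inr (Or.inr ⟨hm0, y, ?_⟩)
          rw [hy]
          simp only [map_mul, map_pow, map_natCast, map_ofNat]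
          unfold DD
          push_cast
          ring)
    rcases hH with ⟨h3, h4⟩ | ⟨h3, h4⟩
    · exact h4 (h1 h3)
    · obtain ⟨x, hx, hx2⟩ := h2 h3
      have hM0 : (((∏ i ∈ P \ I, i) * ∏ q ∈ S, q : ℕ) : ZMod p) ≠ 0 := by
        rw [Ne, ZMod.natCast_eq_zero_iff]
        intro h'
        rcases (hps.1.dvd_mul).1 h' with h5 | h5
        · exact not_dvd_prod hps.1 (fun q hq => (hP q (Finset.mem_sdiff.1 hq).1).1)
            (fun h6 => (Finset.mem_sdiff.1 h6).2 h3) h5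
        · refine not_dvd_prod hps.1 (fun q hq => (hS q hq).1) (fun h6 => ?_) h5
          have h7 := (hS p h6).2.1
          have h8 := hps.2.1
          omega
      push_cast at hx2
      obtain ⟨x', hx', hx2'⟩ := root_conv hps hM0 hx (by push_cast; exact hx2)
      exact h4 x' hx2' hx'
  · rw [Finset.not_nonempty_iff_eq_empty] at hI0
    rw [hI0, Finset.prod_empty] at hdk''
    rcases hk' with rfl | rfl
    · exact ⟨c, Or.inl (by rw [hbd, hdk'']; push_cast; ring)⟩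
    · exact ⟨c, Or.inr (by rw [hbd, hdk'']; push_cast; ring)⟩

/-- a set with two classes -/
lemma two_classes {a : ℚ} (ha : a ≠ 0) (b : ℚˣ)
    (h : ∃ c : ℚ, (b : ℚ) = c ^ 2 ∨ (b : ℚ) = a * c ^ 2) :
    (b : ℚˣ ⧸ Sq ℚ) ∈ ({(1 : ℚˣ ⧸ Sq ℚ), ((Units.mk0 a ha : ℚˣ) : ℚˣ ⧸ Sq ℚ)} :
      Set (ℚˣ ⧸ Sq ℚ)) := by
  obtain ⟨c, hc⟩ := h
  have hc0 : c ≠ 0 := by
    rintro rfl
    rcases hc with hc | hc
    · rw [zero_pow two_ne_zero] at hc; exact b.ne_zero hc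
    · rw [zero_pow two_ne_zero, mul_zero] at hc; exact b.ne_zero hc
  rcases hc with hc | hc
  · left
    have h1 : (1 : ℚˣ ⧸ Sq ℚ) = ((1 : ℚˣ) : ℚˣ ⧸ Sq ℚ) := rfl
    rw [h1, eq_comm, quot_eq]
    refine ⟨Units.mk0 c hc0, Units.ext ?_⟩
    rw [Units.val_mul, Units.val_one, one_mul, Units.val_pow_eq_pow_val, Units.val_mk0, hc]
  · right
    show (b : ℚˣ ⧸ Sq ℚ) = ((Units.mk0 a ha : ℚˣ) : ℚˣ ⧸ Sq ℚ)
    rw [eq_comm, quot_eq]
    refine ⟨Units.mk0 c hc0, Units.ext ?_⟩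
    rw [Units.val_mul, Units.val_pow_eq_pow_val, Units.val_mk0, Units.val_mk0, hc]

lemma card_two (x y : ℚˣ ⧸ Sq ℚ) : Nat.card ({x, y} : Set (ℚˣ ⧸ Sq ℚ)) ≤ 2 := by
  have h1 : ({x, y} : Set (ℚˣ ⧸ Sq ℚ)).ncard ≤ 2 := by
    refine (Set.ncard_insert_le _ _).trans ?_
    rw [Set.ncard_singleton]
  exact h1

/-- **rank and Sha of the twist** -/
theorem zero_sha (hP : ∀ p ∈ P, PS p) (hS : ∀ q ∈ S, PQ q) (H : Hyp P S) :
    rk (Y682.wc (13 * ((DD P S : ℕ) : ℚ)) (128 * ((DD P S : ℕ) : ℚ) ^ 2)) = 0 ∧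
    ∀ y : Sha (Y682.wc (13 * ((DD P S : ℕ) : ℚ)) (128 * ((DD P S : ℕ) : ℚ) ^ 2)),
      2 • y = 0 → y = 0 := by
  have hD0 : ((DD P S : ℕ) : ℚ) ≠ 0 := by exact_mod_cast DD_ne hP hS
  have hB : (128 * ((DD P S : ℕ) : ℚ) ^ 2) ≠ 0 := mul_ne_zero (by norm_num) (pow_ne_zero 2 hD0)
  have hT := wc_isT (A := 13 * ((DD P S : ℕ) : ℚ)) hB (by
    have : (13 * ((DD P S : ℕ) : ℚ)) ^ 2 - 4 * (128 * ((DD P S : ℕ) : ℚ) ^ 2) =
      -343 * ((DD P S : ℕ) : ℚ) ^ 2 := by ring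
    rw [this]
    exact mul_ne_zero (by norm_num) (pow_ne_zero 2 hD0))
  have hfU : Finite ({(1 : ℚˣ ⧸ Sq ℚ), ((Units.mk0 (2 : ℚ) two_ne_zero : ℚˣ) : ℚˣ ⧸ Sq ℚ)} :
      Set (ℚˣ ⧸ Sq ℚ)) := (Set.toFinite _).to_subtype
  have h70 : (-7 : ℚ) ≠ 0 := by norm_num
  have hfV : Finite ({(1 : ℚˣ ⧸ Sq ℚ), ((Units.mk0 (-7 : ℚ) h70 : ℚˣ) :
      ℚˣ ⧸ Sq ℚ)} : Set (ℚˣ ⧸ Sq ℚ)) := (Set.toFinite _).to_subtype
  obtain ⟨hf, hc⟩ := Zc_card hT
    (U := {(1 : ℚˣ ⧸ Sq ℚ), ((Units.mk0 (2 : ℚ) two_ne_zero : ℚˣ) : ℚˣ ⧸ Sq ℚ)})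
    (V := {(1 : ℚˣ ⧸ Sq ℚ), ((Units.mk0 (-7 : ℚ) h70 : ℚˣ) : ℚˣ ⧸ Sq ℚ)})
    (Or.inl rfl)
    (fun b hb => two_classes two_ne_zero b (U_main hP hS H b.ne_zero hb))
    (fun b hb => two_classes h70 b (V_main hP hS H b.ne_zero hb))
  obtain ⟨h3, h4⟩ := Zc_lower hT
  have h5 := hc.trans (Nat.mul_le_mul (card_two _ _) (card_two _ _))
  set X := Nat.card {x : Sha (Y682.wc (13 * ((DD P S : ℕ) : ℚ))
    (128 * ((DD P S : ℕ) : ℚ) ^ 2)) // 2 • x = 0} with hX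
  have hX0 : 0 < X := Nat.card_pos_iff.2 ⟨⟨⟨0, smul_zero 2⟩⟩, h3⟩
  set r := rk (Y682.wc (13 * ((DD P S : ℕ) : ℚ)) (128 * ((DD P S : ℕ) : ℚ) ^ 2)) with hr
  have h6 : 4 * 2 ^ r * X ≤ 2 * 2 := h4.trans h5
  have h2r : 0 < 2 ^ r := by positivity
  have h7 : 2 ^ r * X ≤ 1 := by nlinarith
  have hX1 : X = 1 := by nlinarith
  constructor
  · by_contra h0
    have : 2 ≤ 2 ^ r := by
      calc 2 = 2 ^ 1 := by norm_num
        _ ≤ 2 ^ r := Nat.pow_le_pow_right (by norm_num) (by omega)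
    nlinarith
  · intro y hy
    have h8 := (Nat.card_eq_one_iff_unique.1 hX1).1
    exact congrArg Subtype.val (h8.elim ⟨y, hy⟩ ⟨0, smul_zero 2⟩)

/-- **rank and Sha of the minimal equation of the twist** -/
theorem zero_sha_WM (hP : ∀ p ∈ P, PS p) (hS : ∀ q ∈ S, PQ q) (H : Hyp P S) :
    Pool.Agent.Y682.XF.rank ℚ (WM ((DD P S : ℕ) : ℤ)) = 0 ∧
    ∀ x : Sha (Pool.Agent.Y682.XF.base (WM ((DD P S : ℕ) : ℤ)) ℚ), 2 • x = 0 → x = 0 := by
  obtain ⟨hr0, hsha⟩ := zero_sha hP hS H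
  have hDmod := DD_mod hP hS
  obtain ⟨k, hk⟩ : ∃ k : ℤ, ((DD P S : ℕ) : ℤ) = 4 * k + 1 :=
    ⟨((DD P S / 4 : ℕ) : ℤ), by omega⟩
  have hkq : ((DD P S : ℕ) : ℚ) = 4 * (k : ℚ) + 1 := by exact_mod_cast hk
  rw [hkq] at hr0 hsha
  rw [Pool.Agent.Y31.XF.wm_eq hk]
  obtain ⟨⟨e1⟩, ⟨e2⟩⟩ := Pool.Agent.Y655.XT.s_shavc ℚ _ _ (Pool.Agent.Y31.XF.CV k)
    (Pool.Agent.Y31.XF.disc_ne k) (Pool.Agent.Y31.XF.cv_eq k)
  constructor
  · exact (Pool.Agent.Y31.XF.fin_eq _ _ e1).trans hr0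
  · intro x hx
    have h4 := hsha (e2 x) (by rw [← map_nsmul, hx, map_zero])
    exact (map_eq_zero_iff e2 e2.injective).1 h4

end main

end Pool.Agent.Run7.h743.SX
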