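import Mathlib
import Pool.Agent.Run7.h743.SX.Sel2
import Pool.Agent.Y79.SG.Coc
import Pool.Agent.Y79.SG.Lot
import Pool.Agent.Y945.SG.Cob
import Pool.Agent.Y542.SGT.Tor
import Pool.Agent.Y587.SG.LG
import Pool.Agent.Y971.SG.Lq
import Pool.Agent.Y682.Theta

/-!
# The converse: nontrivial Selmer classes of the quadratic twists of `X_0(14)` (helper743, for the
joint work with helper701 on MP_9c97e9_nt)
-/

set_option autoImplicit false
set_option linter.unusedSectionVars false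

open NumberField IsDedekindDomain

namespace Pool.Agent.Run7.h743.SX

open Pool.Agent.Y682 Pool.Agent.Y500.XD
open Pool.Agent.TH841.NF.D (rk Sha shaCoc)
open Pool.Agent.Y700 (WM)
open Pool.Agent.Y698.SG.Cv (WF LocI coc)
open Pool.Agent.TH841.SH.D (Pt act Coch IsCoc IsCob LocTriv cob cob_zero)
open Pool.Agent.TH841.LS.LOCA0 (sq_of_char)

open scoped Classical

lemma locI_map {L L' : Type} [Field L] [Field L'] (φ : L →+* L') {a b d : ℤ} (h : LocI L a b d) :
    LocI L' a b d := by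
  obtain ⟨X, Y, r, h1, h2, h3⟩ := h
  refine ⟨φ X, φ Y, φ r, (map_ne_zero φ).2 h1, ?_, ?_⟩
  · have h4 := congrArg φ h2
    simp only [map_pow, map_add, map_sub, map_mul, map_ofNat, map_intCast] at h4
    exact h4
  · have h4 := congrArg φ h3
    simp only [map_pow, map_mul, map_intCast] at h4
    exact h4

/-- local points at the primes of good reduction -/
theorem loc_good (p : ℕ) [hp : Fact p.Prime] (a b d : ℤ) (h2 : p ≠ 2)
    (hbz : ((b : ℤ) : ZMod p) ≠ 0) (hcz : ((a : ℤ) : ZMod p) ^ 2 - 4 * ((b : ℤ) : ZMod p) ≠ 0)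
    (hdz : ((d : ℤ) : ZMod p) ≠ 0) : LocI ℚ_[p] a b d := by
  have hd0 : d ≠ 0 := by
    rintro rfl
    exact hdz (by simp)
  have hc0 : a ^ 2 - 4 * b ≠ 0 := by
    intro h
    apply hcz
    have := congrArg (Int.cast : ℤ → ZMod p) h
    push_cast at this
    exact this
  have hq := Pool.Agent.Y587.SG.lq a b d hc0 hd0
  have sq : ∀ u : ℤ_[p], quadraticChar (ZMod p) (PadicInt.toZMod u) = 1 →
      IsSquare (u : ℚ_[p]) := by
    intro u hu
    obtain ⟨v, hv⟩ := sq_of_char h2 hu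
    exact ⟨v, by rw [hv]; push_cast; ring⟩
  rcases quadraticChar_dichotomy hdz with hd1 | hd1
  · apply hq p
    left
    have := sq (d : ℤ_[p]) (by rw [map_intCast]; exact hd1)
    push_cast at this
    exact this
  · rcases quadraticChar_dichotomy hcz with hc1 | hc1
    · exact Pool.Agent.Y587.SG.aux p _ _ d h2 hbz hc1 hd0 hd1
    · apply hq p
      right
      have := sq ((d : ℤ_[p]) * ((a : ℤ_[p]) ^ 2 - 4 * (b : ℤ_[p]))) (by
        have e : PadicInt.toZMod ((d : ℤ_[p]) * ((a : ℤ_[p]) ^ 2 - 4 * (b : ℤ_[p]))) =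
            (d : ZMod p) * ((a : ZMod p) ^ 2 - 4 * (b : ZMod p)) := by
          rw [map_mul, map_sub, map_pow, map_mul, map_intCast, map_intCast, map_intCast, map_ofNat]
        rw [e, map_mul, hd1, hc1]
        norm_num)
      push_cast at this
      exact this

/-- local points at the split primes dividing `d` -/
theorem loc_split (p : ℕ) [hp : Fact p.Prime] (hps : PS p) {d M : ℤ} (hd0 : d ≠ 0)
    (hM : ¬ (p : ℤ) ∣ M) {x : ZMod p} (hx : IsSquare x)
    (hx2 : x ^ 2 + 13 * (M : ZMod p) * x + 128 * (M : ZMod p) ^ 2 = 0) :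
    LocI ℚ_[p] (13 * (d * M)) (128 * (d * M) ^ 2) d := by
  have h2 := hps.two_ne
  have h7 := hps.seven_ne
  have hMz : (M : ZMod p) ≠ 0 := by
    intro h0
    exact hM ((ZMod.intCast_zmod_eq_zero_iff_dvd M p).1 h0)
  obtain ⟨r, hr⟩ := hx
  obtain ⟨i, hi⟩ := hps.negone
  have hx0 : x ≠ 0 := by
    rintro rfl
    have h1 : (2 : ZMod p) ^ 7 * (M : ZMod p) ^ 2 = 0 := by linear_combination hx2
    exact mul_ne_zero (pow_ne_zero 7 h2) (pow_ne_zero 2 hMz) h1
  have hr0 : r ≠ 0 := by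
    rintro rfl
    exact hx0 (by rw [hr, mul_zero])
  have hch : ∀ {z : ZMod p}, z ≠ 0 → IsSquare z → quadraticChar (ZMod p) z = 1 :=
    fun hz h => (quadraticChar_one_iff_isSquare hz).2 h
  -- a square root of two
  obtain ⟨S, hS⟩ : ∃ S : ℤ_[p], (2 : ℤ_[p]) = S * S := by
    apply sq_of_char hps.ne2
    rw [map_ofNat]
    exact hch h2 hps.two
  set s : ZMod p := PadicInt.toZMod S with hs
  have hs2 : (2 : ZMod p) = s * s := by
    have := congrArg PadicInt.toZMod hS
    rw [map_ofNat, map_mul] at this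
    exact this
  set X : ℤ_[p] := (M : ℤ_[p]) * (13 + 16 * S) with hX
  have hXz : PadicInt.toZMod X = (M : ZMod p) * (13 + 16 * s) := by
    rw [hX, map_mul, map_add, map_mul, map_intCast, map_ofNat, map_ofNat]
  have hXx : (M : ZMod p) * (13 + 16 * s) * x = -(x - 8 * s * M) ^ 2 := by
    linear_combination hx2 - 64 * (M : ZMod p) ^ 2 * hs2
  have hX0 : (M : ZMod p) * (13 + 16 * s) ≠ 0 := by
    intro h0
    have h1 := (mul_eq_zero.1 h0).resolve_left hMz
    have h3 : (7 : ZMod p) ^ 3 = 0 := by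
      linear_combination -(13 - 16 * s) * h1 + 256 * hs2
    exact pow_ne_zero 3 h7 h3
  have hXsq : IsSquare (PadicInt.toZMod X) := by
    rw [hXz]
    refine ⟨i * (x - 8 * s * M) / r, ?_⟩
    rw [div_mul_div_comm, eq_div_iff (mul_ne_zero hr0 hr0), ← hr]
    linear_combination hXx + (x - 8 * s * M) ^ 2 * hi
  obtain ⟨R, hR⟩ := sq_of_char hps.ne2 (hch (by rw [hXz]; exact hX0) hXsq)
  have hXX : X ^ 2 - 26 * M * X - 343 * (M : ℤ_[p]) ^ 2 = 0 := by
    rw [hX]
    linear_combination -256 * (M : ℤ_[p]) ^ 2 * hS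
  have hR0 : (R : ℚ_[p]) ≠ 0 := by
    intro h0
    have h0' : R = 0 := Subtype.ext h0
    rw [h0', mul_zero] at hR
    apply hX0
    rw [← hXz, hR, map_zero]
  have hdq : (d : ℚ_[p]) ≠ 0 := by exact_mod_cast hd0
  have hRq := congrArg (fun w : ℤ_[p] => (w : ℚ_[p])) hR
  have hXq := congrArg (fun w : ℤ_[p] => (w : ℚ_[p])) hXX
  have hc343 : ((343 : ℤ_[p]) : ℚ_[p]) = 343 := rfl
  have hc26 : ((26 : ℤ_[p]) : ℚ_[p]) = 26 := rfl
  push_cast at hRq hXq
  rw [hc343, hc26] at hXq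
  refine ⟨d * (R : ℚ_[p]) ^ 2, 0, R, mul_ne_zero hdq (pow_ne_zero 2 hR0), ?_, rfl⟩
  rw [hRq] at hXq
  push_cast
  linear_combination (-(d : ℚ_[p]) ^ 3 * (R : ℚ_[p]) ^ 2) * hXq

/-- an integer congruent to one modulo eight is a square -/
lemma sq_two {d : ℤ} (h : d % 8 = 1) (p : ℕ) [hp : Fact p.Prime] (hp2 : p = 2) :
    IsSquare (d : ℚ_[p]) := by
  obtain ⟨k, hk⟩ : ∃ k : ℤ, d = 1 + 8 * k := ⟨d / 8, by omega⟩
  obtain ⟨z, hz⟩ := Pool.Agent.Y587.SG.hens p (k : ℤ_[p])
  have hz' := congrArg (fun w : ℤ_[p] => (w : ℚ_[p])) hz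
  have hc4 : ((4 : ℤ_[p]) : ℚ_[p]) = 4 := rfl
  push_cast at hz'
  rw [hc4] at hz'
  refine ⟨(z : ℚ_[p]), ?_⟩
  rw [← hz', hk]
  have hpq : (p : ℚ_[p]) = 2 := congrArg (fun n : ℕ => (n : ℚ_[p])) hp2
  rw [hpq]
  push_cast
  ring

lemma sq_seven_prod {I : Finset ℕ} (hI : ∀ p ∈ I, PS p) :
    IsSquare (((∏ i ∈ I, i : ℕ) : ℕ) : ZMod 7) := by
  have hF : Fact (Nat.Prime 7) := ⟨by norm_num⟩
  rw [Nat.cast_prod]
  refine Finset.prod_induction _ (fun z => IsSquare z) (fun a b ha hb => ha.mul hb)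
    ⟨1, by ring⟩ fun p hp => ?_
  have h4' : ((p : ℕ) : ZMod 7) = ((p % 7 : ℕ) : ZMod 7) := by rw [ZMod.natCast_mod]
  rw [h4']
  have h := (hI p hp).2.2
  exact (sq7 (p % 7) (Nat.mod_lt _ (by norm_num)) (by omega)).2 h

lemma prod_mod8 {I : Finset ℕ} (hI : ∀ p ∈ I, PS p) : (∏ p ∈ I, p) % 8 = 1 := by
  induction I using Finset.induction_on with
  | empty => simp
  | insert a T ha ih =>
    rw [Finset.prod_insert ha, Nat.mul_mod, ih fun q hq => hI q (Finset.mem_insert_of_mem hq)]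
    have := (hI a (Finset.mem_insert_self _ _)).2.1
    omega

section main

variable {P S : Finset ℕ}

/-- local points at all the finite places -/
theorem loc_all (hP : ∀ p ∈ P, PS p) (hS : ∀ q ∈ S, PQ q) {I : Finset ℕ} (hI : I ⊆ P)
    (hloc : ∀ p ∈ P, (p ∉ I → IsSquare (((∏ i ∈ I, i : ℕ)) : ZMod p)) ∧
      (p ∈ I → ∃ x : ZMod p, IsSquare x ∧
        x ^ 2 + 13 * (((∏ i ∈ P \ I, i) * ∏ q ∈ S, q : ℕ) : ZMod p) * x +
        128 * (((∏ i ∈ P \ I, i) * ∏ q ∈ S, q : ℕ) : ZMod p) ^ 2 = 0))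
    (p : ℕ) [hp : Fact p.Prime] :
    LocI ℚ_[p] (13 * (DD P S : ℤ)) (128 * (DD P S : ℤ) ^ 2) ((∏ i ∈ I, i : ℕ) : ℤ) := by
  have hpp := hp.out
  have hIP : ∀ p ∈ I, PS p := fun p hp => hP p (hI hp)
  obtain ⟨d, hd⟩ : ∃ d : ℕ, d = ∏ i ∈ I, i := ⟨_, rfl⟩
  have hd0 : (d : ℤ) ≠ 0 := by
    have : d ≠ 0 := by
      rw [hd]
      exact Finset.prod_ne_zero_iff.2 fun i hi => (hIP i hi).1.ne_zero
    exact_mod_cast this
  have hD0 : ((DD P S : ℕ) : ℤ) ≠ 0 := by exact_mod_cast DD_ne hP hS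
  have hab : (13 * (DD P S : ℤ)) ^ 2 - 4 * (128 * (DD P S : ℤ) ^ 2) ≠ 0 := by
    have e : (13 * (DD P S : ℤ)) ^ 2 - 4 * (128 * (DD P S : ℤ) ^ 2) =
      -343 * (DD P S : ℤ) ^ 2 := by ring
    rw [e]
    exact mul_ne_zero (by norm_num) (pow_ne_zero 2 hD0)
  have hlq := Pool.Agent.Y587.SG.lq (13 * (DD P S : ℤ)) (128 * (DD P S : ℤ) ^ 2) (d : ℤ) hab hd0 p
  have hnd : ∀ {T : Finset ℕ}, (∀ q ∈ T, q.Prime) → p ∉ T → ((∏ q ∈ T, q : ℕ) : ZMod p) ≠ 0 := by
    intro T hT h' h''
    exact not_dvd_prod hpp hT h' ((ZMod.natCast_eq_zero_iff _ _).1 h'')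
  rw [← hd]
  by_cases hp2 : p = 2
  · apply hlq
    left
    have := sq_two (d := (d : ℤ)) (by have := prod_mod8 hIP; rw [← hd] at this; omega) p hp2
    exact this
  have h2z : (2 : ZMod p) ≠ 0 := Pool.Agent.Y587.SG.two_ne hp2
  by_cases hp7 : p = 7
  · apply hlq
    left
    apply Pool.Agent.Y971.SG.Lq.t_SQ p (d : ℤ) hp2
    · intro h
      have h1 : p ∣ d := by exact_mod_cast h
      rw [hd] at h1
      refine not_dvd_prod hpp (fun q hq => (hIP q hq).1) (fun h3 => ?_) h1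
      exact (hIP p h3).ne7 hp7
    · have := sq_seven_prod hIP
      subst hp7
      rw [hd]
      exact_mod_cast this
  have h7z : (7 : ZMod p) ≠ 0 := by
    have := cast_ne hpp 7 (by norm_num) hp7
    exact_mod_cast this
  by_cases hpI : p ∈ I
  · obtain ⟨x, hx, hx2⟩ := (hloc p (hI hpI)).2 hpI
    obtain ⟨M, hM⟩ : ∃ M : ℕ, M = (∏ i ∈ P \ I, i) * ∏ q ∈ S, q := ⟨_, rfl⟩
    rw [← hM] at hx2
    have hps := hIP p hpI
    have hMp : ¬ (p : ℤ) ∣ (M : ℤ) := by
      intro h
      have h1 : p ∣ M := by exact_mod_cast h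
      rw [hM] at h1
      rcases (hpp.dvd_mul).1 h1 with h5 | h5
      · exact not_dvd_prod hpp (fun q hq => (hP q (Finset.mem_sdiff.1 hq).1).1)
          (fun h6 => (Finset.mem_sdiff.1 h6).2 hpI) h5
      · refine not_dvd_prod hpp (fun q hq => (hS q hq).1) (fun h6 => ?_) h5
        have h7 := (hS p h6).2.1
        have h8 := hps.2.1
        omega
    have h := loc_split p hps (d := (d : ℤ)) (M := (M : ℤ)) hd0 hMp hx (by
      push_cast
      exact hx2)
    have e : ((DD P S : ℕ) : ℤ) = (d : ℤ) * (M : ℤ) := by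
      have h3 : (∏ i ∈ P \ I, i) * ∏ i ∈ I, i = ∏ i ∈ P, i := Finset.prod_sdiff hI
      rw [hM, hd]
      unfold DD
      rw [← h3]
      push_cast
      ring
    rw [e]
    exact h
  · have hdz : ((d : ℤ) : ZMod p) ≠ 0 := by
      rw [Int.cast_natCast, hd]
      exact hnd (fun q hq => (hIP q hq).1) hpI
    have hnd' : ¬ (p : ℤ) ∣ (d : ℤ) := fun h =>
      hdz ((ZMod.intCast_zmod_eq_zero_iff_dvd _ _).2 h)
    by_cases hpP : p ∈ P
    · apply hlq
      left
      apply Pool.Agent.Y971.SG.Lq.t_SQ p (d : ℤ) hp2 hnd'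
      have := (hloc p hpP).1 hpI
      rw [hd]
      exact_mod_cast this
    · by_cases hpS : p ∈ S
      · by_cases h3 : IsSquare ((d : ℕ) : ZMod p)
        · apply hlq
          left
          apply Pool.Agent.Y971.SG.Lq.t_SQ p (d : ℤ) hp2 hnd'
          rw [Int.cast_natCast]
          exact h3
        · have hq := hS p hpS
          have hm7 : ¬ IsSquare (-7 : ZMod p) := by
            rw [sq_seven p (by have := hq.2.1; omega) hp7]
            have := hq.2.2
            omega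
          have h70 : ((-7 : ℤ) : ZMod p) ≠ 0 := by
            push_cast
            exact neg_ne_zero.2 h7z
          have h4 : IsSquare ((((-7) * d : ℤ)) : ZMod p) := by
            have e1 : quadraticChar (ZMod p) (((-7) * d : ℤ) : ZMod p) = 1 := by
              rw [Int.cast_mul, map_mul]
              have a1 : quadraticChar (ZMod p) ((-7 : ℤ) : ZMod p) = -1 := by
                rw [quadraticChar_neg_one_iff_not_isSquare]
                intro h
                apply hm7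
                exact_mod_cast h
              have a2 : quadraticChar (ZMod p) ((d : ℤ) : ZMod p) = -1 := by
                rw [quadraticChar_neg_one_iff_not_isSquare]
                intro h
                apply h3
                exact_mod_cast h
              rw [a1, a2]
              norm_num
            refine (quadraticChar_one_iff_isSquare ?_).1 e1
            rw [Int.cast_mul]
            exact mul_ne_zero h70 hdz
          have h5 : IsSquare ((((-7) * d : ℤ)) : ℚ_[p]) := by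
            refine Pool.Agent.Y971.SG.Lq.t_SQ p ((-7) * d) hp2 ?_ h4
            intro h
            have := (ZMod.intCast_zmod_eq_zero_iff_dvd _ _).2 h
            rw [Int.cast_mul] at this
            exact mul_ne_zero h70 hdz this
          apply hlq
          right
          obtain ⟨s, hs⟩ := h5
          refine ⟨7 * s * (DD P S : ℚ_[p]), ?_⟩
          push_cast at hs ⊢
          linear_combination 49 * (DD P S : ℚ_[p]) ^ 2 * hs
      · have hDz : ((DD P S : ℕ) : ZMod p) ≠ 0 := by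
          unfold DD
          rw [Nat.cast_mul]
          exact mul_ne_zero (hnd (fun q hq => (hP q hq).1) hpP) (hnd (fun q hq => (hS q hq).1) hpS)
        apply loc_good p _ _ _ hp2 ?_ ?_ hdz
        · push_cast
          have : (128 : ZMod p) = 2 ^ 7 := by norm_num
          rw [this]
          exact mul_ne_zero (pow_ne_zero 7 h2z) (pow_ne_zero 2 hDz)
        · push_cast
          have : (13 * ((DD P S : ℕ) : ZMod p)) ^ 2 - 4 * (128 * ((DD P S : ℕ) : ZMod p) ^ 2) =
            -(7 ^ 3 * ((DD P S : ℕ) : ZMod p) ^ 2) := by ring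
          rw [this]
          exact neg_ne_zero.2 (mul_ne_zero (pow_ne_zero 3 h7z) (pow_ne_zero 2 hDz))

end main

end Pool.Agent.Run7.h743.SX
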