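import Mathlib
import Pool.Agent.Run7.h743.SX.Conv

/-!
# The converse: nontrivial elements of the Tate-Shafarevich group of the quadratic twists of `X_0(14)`
(helper743, for the joint work with helper701 on MP_9c97e9_nt)
-/

set_option autoImplicit false
set_option linter.unusedSectionVars false

open NumberField IsDedekindDomain

namespace Pool.Agent.Run7.h743.SX

open Pool.Agent.Y682 Pool.Agent.Y500.XD
open Pool.Agent.TH841.NF.D (rk Sha shaCoc)
open Pool.Agent.Y700 (WM)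
open Pool.Agent.Y698.SG.Cv (WF LocI coc)
open Pool.Agent.TH841.SH.D (Pt act Coch IsCoc IsCob LocTriv cob cob_zero)

open scoped Classical

/-- a nontrivial element of `Ш[2]` from an everywhere locally trivial class -/
theorem sha_ex (K : Type) [Field K] [NumberField K] {a b d : ℤ} (hb : b ≠ 0)
    (hab : a ^ 2 - 4 * b ≠ 0) (nb : ¬ IsSquare (b : K)) (nab : ¬ IsSquare ((a : K) ^ 2 - 4 * b))
    (hd : d ≠ 0) (n1 : ¬ IsSquare (d : K)) (n2 : ¬ IsSquare ((d : K) * ((a : K) ^ 2 - 4 * b)))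
    (hl : ∀ (p : ℕ) [Fact p.Prime], LocI ℚ_[p] a b d) (hr : LocI ℝ a b d)
    (hf : Finite (WF K a b).toAffine.Point) : ∃ x : Sha (WF K a b), x ≠ 0 ∧ x + x = 0 := by
  have hc : coc K hb d ∈ shaCoc (WF K a b) := by
    refine ⟨(Pool.Agent.Y79.SG.t_COC K a b hb d).1, fun v => ?_, fun v => ?_⟩
    · obtain ⟨p, hp, hpv⟩ := exists_prime_mem v
      have : Fact p.Prime := ⟨hp⟩
      exact Pool.Agent.Y79.SG.Lot.t_LOT K a b hb d hab hd _
        (locI_map (Pool.Agent.Y682.pth (v := v) (p := p) hpv) (hl p))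
    · rcases v.isReal_or_isComplex with h | h
      · exact Pool.Agent.Y79.SG.Lot.t_LOT K a b hb d hab hd _
          (locI_map (InfinitePlace.Completion.ringEquivRealOfIsReal h).symm.toRingHom hr)
      · exact Pool.Agent.Y79.SG.Lot.t_LOT K a b hb d hab hd _
          (locI_map (InfinitePlace.Completion.ringEquivComplexOfIsComplex h).symm.toRingHom
            (locI_map (algebraMap ℝ ℂ) hr))
  let N : AddSubgroup (shaCoc (WF K a b)) := (cob (WF K a b)).addSubgroupOf (shaCoc (WF K a b))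
  let y : shaCoc (WF K a b) := ⟨coc K hb d, hc⟩
  refine ⟨(QuotientAddGroup.mk y : shaCoc (WF K a b) ⧸ N), ?_, ?_⟩
  · intro h0
    have h0' : (QuotientAddGroup.mk y : shaCoc (WF K a b) ⧸ N) = 0 := h0
    rw [QuotientAddGroup.eq_zero_iff, AddSubgroup.mem_addSubgroupOf] at h0'
    rcases Pool.Agent.Y945.SG.t_COB K a b hb d hab hd h0' with h | h | h
    · exact n1 h
    · exact n2 h
    · rcases Pool.Agent.Y542.SGT.t_TOR K a b d hb hab nb nab hf h with h | h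
      · exact n1 h
      · exact n2 h
  · have h5 : (QuotientAddGroup.mk (y + y) : shaCoc (WF K a b) ⧸ N) = 0 := by
      rw [QuotientAddGroup.eq_zero_iff, AddSubgroup.mem_addSubgroupOf]
      have h6 : ((y + y : shaCoc (WF K a b)) : Coch (WF K a b)) = 0 :=
        (Pool.Agent.Y79.SG.t_COC K a b hb d).2
      rw [h6]
      exact cob_zero _
    exact h5

lemma not_sq_of_neg {x : ℚ} (h : x < 0) : ¬ IsSquare x := by
  rintro ⟨y, rfl⟩
  nlinarith [mul_self_nonneg y]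

lemma not_sq_of_prime {d : ℤ} (hd : Squarefree d) {p : ℕ} (hp : p.Prime) (hpd : (p : ℤ) ∣ d) :
    ¬ IsSquare (d : ℚ) := by
  intro h
  have h' : IsSquare d := by
    rw [← Rat.isSquare_intCast_iff]
    exact h
  obtain ⟨m, hm⟩ := h'
  have hu := hd m (by rw [hm])
  have hd1 : IsUnit d := by rw [hm]; exact hu.mul hu
  have := isUnit_of_dvd_unit hpd hd1
  exact (Nat.prime_iff_prime_int.1 hp).not_isUnit this

lemma fin_of_rk {A B : ℚ} {W : WeierstrassCurve ℚ} (hT : IsT W A B) (h : rk W = 0) :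
    Finite W.toAffine.Point := by
  have hfg : Module.Finite ℤ (MP W) := fg_MP hT
  have h' : Module.finrank ℤ (MP W) = 0 := h
  rw [Module.finrank_eq_zero_iff_isTorsion] at h'
  have h2 : Finite (MP W) := Module.finite_of_fg_torsion (MP W) h'
  exact h2

section main

variable {P S : Finset ℕ}

/-- **the converse** -/
theorem sha_ne (hP : ∀ p ∈ P, PS p) (hS : ∀ q ∈ S, PQ q) (H : ¬ Hyp P S)
    (h0 : Pool.Agent.Y682.XF.rank ℚ (WM ((DD P S : ℕ) : ℤ)) = 0) :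
    ∃ x : Sha (Pool.Agent.Y682.XF.base (WM ((DD P S : ℕ) : ℤ)) ℚ), x ≠ 0 ∧ 2 • x = 0 := by
  unfold Hyp at H
  push Not at H
  obtain ⟨I, hI, hne, hloc⟩ := H
  have hIP : ∀ p ∈ I, PS p := fun p hp => hP p (hI hp)
  have hloc' : ∀ p ∈ P, (p ∉ I → IsSquare (((∏ i ∈ I, i : ℕ)) : ZMod p)) ∧
      (p ∈ I → ∃ x : ZMod p, IsSquare x ∧
        x ^ 2 + 13 * (((∏ i ∈ P \ I, i) * ∏ q ∈ S, q : ℕ) : ZMod p) * x +
        128 * (((∏ i ∈ P \ I, i) * ∏ q ∈ S, q : ℕ) : ZMod p) ^ 2 = 0) := by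
    intro p hp
    obtain ⟨h1, h2⟩ := hloc p hp
    refine ⟨h1, fun h => ?_⟩
    obtain ⟨x, hx, hx'⟩ := h2 h
    exact ⟨x, hx', hx⟩
  have hpt := fun (p : ℕ) (hp : Fact p.Prime) => loc_all hP hS hI hloc' p
  obtain ⟨d, hd⟩ : ∃ d : ℤ, d = ((∏ i ∈ I, i : ℕ) : ℤ) := ⟨_, rfl⟩
  have hdsq : Squarefree d := by
    rw [hd, Int.squarefree_natCast]
    refine Finset.squarefree_prod_of_pairwise_isCoprime ?_ fun p hp => (hIP p hp).1.squarefree
    intro p hp q hq hpq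
    exact Nat.coprime_iff_isRelPrime.1 ((Nat.coprime_primes (hIP p hp).1 (hIP q hq).1).2 hpq)
  obtain ⟨p0, hp0⟩ := hne
  have hp0d : (p0 : ℤ) ∣ d := by
    rw [hd]
    exact_mod_cast Finset.dvd_prod_of_mem (fun i => i) hp0
  have hdpos : 0 < d := by
    rw [hd]
    exact_mod_cast Nat.pos_of_ne_zero (Finset.prod_ne_zero_iff.2 fun i hi => (hIP i hi).1.ne_zero)
  obtain ⟨D, hD⟩ : ∃ D : ℤ, D = ((DD P S : ℕ) : ℤ) := ⟨_, rfl⟩
  have hD0 : D ≠ 0 := by rw [hD]; exact_mod_cast DD_ne hP hS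
  have hDq : (D : ℚ) ≠ 0 := by exact_mod_cast hD0
  have hDpos : 0 < (D : ℚ) ^ 2 := by positivity
  rw [← hD, ← hd] at hpt
  have hb : 128 * D ^ 2 ≠ 0 := mul_ne_zero (by norm_num) (pow_ne_zero 2 hD0)
  have hab : (13 * D) ^ 2 - 4 * (128 * D ^ 2) ≠ 0 := by
    have e : (13 * D) ^ 2 - 4 * (128 * D ^ 2) = -343 * D ^ 2 := by ring
    rw [e]
    exact mul_ne_zero (by norm_num) (pow_ne_zero 2 hD0)
  -- the group of points
  have hT := wc_isT (K := ℚ) (A := 13 * (D : ℚ)) (B := 128 * (D : ℚ) ^ 2)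
    (by exact_mod_cast hb) (by exact_mod_cast hab)
  have hWF : WF ℚ (13 * D) (128 * D ^ 2) = Y682.wc (13 * (D : ℚ)) (128 * (D : ℚ) ^ 2) := by
    unfold Pool.Agent.Y698.SG.Cv.WF Pool.Agent.Y668.Wt Y682.wc
    push_cast
    rfl
  have hDmod := DD_mod hP hS
  obtain ⟨k, hk⟩ : ∃ k : ℤ, ((DD P S : ℕ) : ℤ) = 4 * k + 1 :=
    ⟨((DD P S / 4 : ℕ) : ℤ), by omega⟩
  have hkq : (D : ℚ) = 4 * (k : ℚ) + 1 := by rw [hD, hk]; push_cast; ring
  rw [Pool.Agent.Y31.XF.wm_eq hk] at h0 ⊢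
  obtain ⟨⟨e1⟩, ⟨e2⟩⟩ := Pool.Agent.Y655.XT.s_shavc ℚ _ _ (Pool.Agent.Y31.XF.CV k)
    (Pool.Agent.Y31.XF.disc_ne k) (Pool.Agent.Y31.XF.cv_eq k)
  have hr0 : rk (Y682.wc (13 * (D : ℚ)) (128 * (D : ℚ) ^ 2)) = 0 := by
    rw [hkq]
    exact (Pool.Agent.Y31.XF.fin_eq _ _ e1).symm.trans h0
  have hfin : Finite (WF ℚ (13 * D) (128 * D ^ 2)).toAffine.Point := by
    rw [hWF]
    exact fin_of_rk hT hr0
  have hy := sha_ex ℚ (a := 13 * D) (b := 128 * D ^ 2) (d := d) hb hab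
    (by
      push_cast
      rintro ⟨s, hs⟩
      have h2 : IsSquare ((2 : ℤ) : ℚ) := by
        refine ⟨s / (8 * D), ?_⟩
        push_cast
        field_simp
        linear_combination hs
      exact not_sq_of_prime (Int.prime_two.squarefree) Nat.prime_two (by norm_num) h2)
    (by
      apply not_sq_of_neg
      push_cast
      nlinarith)
    hdpos.ne' (not_sq_of_prime hdsq (hIP p0 hp0).1 hp0d)
    (by
      apply not_sq_of_neg
      have h1 : (0 : ℚ) < d := by exact_mod_cast hdpos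
      have e : (d : ℚ) * ((((13 * D : ℤ)) : ℚ) ^ 2 - 4 * (((128 * D ^ 2 : ℤ)) : ℚ)) =
        -(343 * (d * (D : ℚ) ^ 2)) := by push_cast; ring
      rw [e]
      have := mul_pos h1 hDpos
      linarith)
    (fun p hp => hpt p hp)
    ((Pool.Agent.Y971.SG.Lq.t_LQ (13 * D) (128 * D ^ 2) d hb hab hdpos.ne').2 hdpos) hfin
  rw [hWF, hkq] at hy
  obtain ⟨y, hy0, hy⟩ := hy
  refine ⟨e2.symm y, ?_, ?_⟩
  · intro h
    exact hy0 ((map_eq_zero_iff e2.symm e2.symm.injective).1 h)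
  · rw [← map_nsmul, two_nsmul, hy, map_zero]

/-- the rank and the 2-primary part of Sha are trivial if and only if the condition holds -/
theorem zero_sha_iff (hP : ∀ p ∈ P, PS p) (hS : ∀ q ∈ S, PQ q) :
    (Pool.Agent.Y682.XF.rank ℚ (WM ((DD P S : ℕ) : ℤ)) = 0 ∧
      ∀ x : Sha (Pool.Agent.Y682.XF.base (WM ((DD P S : ℕ) : ℤ)) ℚ), 2 • x = 0 → x = 0) ↔
    Hyp P S := by
  constructor
  · rintro ⟨h0, h⟩
    by_contra H
    obtain ⟨x, hx0, hx⟩ := sha_ne hP hS H h0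
    exact hx0 (h x hx)
  · exact fun H => zero_sha_WM hP hS H

end main

end Pool.Agent.Run7.h743.SX
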